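import Pool.Agent.P.MP_8c536d_lc.XA.Cut

/-!
An unbreakable bag: it is shrunk along minimum cuts found by a bounded search tree.
-/

namespace Pool.Agent.P.MP_8c536d_lc.XA

open Finset Pool.Agent.Lib.Helper47

/-- state of the search tree: the remaining digits and the three classes -/
abbrev St : Type := ℕ × Finset ℕ × Finset ℕ × Finset ℕ

/-- vertices of the bag next to the source class that are not yet classified -/
def front (g : Gr) (B A D O : Finset ℕ) : Finset ℕ := nb g (reach g (vs g \ B) A) \ (D ∪ O)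

/-- one branching step -/
def bstp (g : Gr) (B : Finset ℕ) (s : St) : St :=
  ((srt (front g B s.2.1 s.2.2.1 s.2.2.2)).head?).elim s fun u =>
    bif s.1 % 3 == 0 then (s.1 / 3, insert u s.2.1, s.2.2.1, s.2.2.2) else
    bif s.1 % 3 == 1 then (s.1 / 3, s.2.1, insert u s.2.2.1, s.2.2.2) else
      (s.1 / 3, s.2.1, s.2.2.1, insert u s.2.2.2)

/-- one branch of the search tree -/
def run (g : Gr) (B : Finset ℕ) (l : List Unit) (v i : ℕ) : St :=
  (bstp g B)^[l.length] (i, {v}, ∅, ∅)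

/-- the sources of a state -/
def src (B : Finset ℕ) (s : St) : Finset ℕ := (s.2.1 ∪ s.2.2.1) ∩ B

/-- the side cut off -/
def off (g : Gr) (T B : Finset ℕ) (s : St) : Finset ℕ := cut g (src B s) (T ∪ s.2.2.1)

/-- the test for progress -/
def acc (g : Gr) (q : ℕ) (T B : Finset ℕ) (s : St) : Bool :=
  Nat.ble (sep g (src B s) (off g T B s)).card q &&
    Nat.blt (sep g (src B s) (off g T B s)).card (src B s).card

/-- smaller bags -/
def bagc (g : Gr) (U : List Unit) (q : ℕ) (T B : Finset ℕ) : List (Finset ℕ) :=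
  (srt B).flatMap fun v =>
    (((List.range U.length).map fun i => run g B (U.take (q * q + 2 * q)) v i).filter
      fun s => acc g q T B s).map fun s => B \ off g T B s ∪ sep g (src B s) (off g T B s)

/-- everything outside `I`, and the first vertex of `I` -/
def tg (g : Gr) (I : Finset ℕ) : Finset ℕ :=
  fil (vs g) fun v => !memB v I || (srt I).all fun u => Nat.ble v u

/-- the bag of `I` -/
def bag (g : Gr) (U : List Unit) (q : ℕ) (I : Finset ℕ) : Finset ℕ :=
  (fun B => (bagc g U q (tg g I) B).headD B)^[g.1.length] (vs g)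

/-- invariant of the bag -/
def BI (g : Gr) (q : ℕ) (T B : Finset ℕ) : Prop :=
  T ⊆ B ∧ B ⊆ vs g ∧ ∀ C ∈ comps g (vs g \ B), (nb g C).card ≤ q

/-- a witness that the bag can be shrunk -/
def Wit (g : Gr) (q : ℕ) (T B X S : Finset ℕ) : Prop :=
  X ⊆ vs g \ T ∧ nb g X ⊆ S ∧ Disjoint X S ∧ S.card ≤ q ∧ S.card < ((X ∪ S) ∩ B).card

variable {g : Gr} {q : ℕ} {U : List Unit} {A D O T T' B X S I : Finset ℕ} {u v : ℕ}

theorem mem_sep : v ∈ sep g A X ↔ (v ∈ nb g X ∨ v ∈ A) ∧ v ∉ X := by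
  simp only [sep, cl, mem_sdiff, mem_union]
  tauto

theorem nb_subset_sep : nb g X ⊆ sep g A X := fun _ h => mem_sep.2 ⟨Or.inl h, (mem_nb.1 h).2.1⟩

theorem upd_spec (hB : BI g q T B) (hA : A ⊆ B) (hT : T ⊆ T')
    (h1 : (sep g A (cut g A T')).card ≤ q) (h2 : (sep g A (cut g A T')).card < A.card) :
    BI g q T (B \ cut g A T' ∪ sep g A (cut g A T')) ∧
      (B \ cut g A T' ∪ sep g A (cut g A T')).card < B.card := by
  have hmin : ∀ Y ⊆ vs g \ T', (sep g A (cut g A T')).card ≤ (sep g A Y).card :=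
    fun Y hY => cut_min hY
  have hX : cut g A T' ⊆ vs g \ T' := cut_subset
  generalize cut g A T' = X at *
  obtain ⟨b1, b2, b3⟩ := hB
  have hS : sep g A X ⊆ vs g := fun v hv =>
    (mem_sep.1 hv).1.elim (fun h => nb_subset h) (fun h => b2 (hA h))
  have hBX : ∀ v ∈ B \ X ∪ sep g A X, v ∉ X := fun v hv =>
    (mem_union.1 hv).elim (fun h => (mem_sdiff.1 h).2) (fun h => (mem_sep.1 h).2)
  refine ⟨⟨fun v hv => mem_union_left _ (mem_sdiff.2 ⟨b1 hv, fun h => (mem_sdiff.1 (hX h)).2
    (hT hv)⟩), union_subset (sdiff_subset.trans b2) hS, fun C' hC' => ?_⟩, ?_⟩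
  · have hP : vs g \ (B \ X ∪ sep g A X) ⊆ vs g := sdiff_subset
    have hnb : ∀ u ∈ nb g C', u ∈ B \ X ∪ sep g A X := fun u hu => by
      by_contra hn
      exact comps_nb hC' hu (mem_sdiff.2 ⟨nb_subset hu, hn⟩)
    have hdis : Disjoint C' (nb g X) := disjoint_left.2 fun y hy h =>
      (mem_sdiff.1 (comps_subset hC' hy)).2 (mem_union_right _ (nb_subset_sep h))
    by_cases hx : ∃ x ∈ C', x ∈ X
    · obtain ⟨x, hx, hx'⟩ := hx
      have hsub := comps_side hP hC' hdis hx hx'
      refine (card_le_card fun u hu => ?_).trans h1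
      obtain ⟨k1, -, y, hy, ha⟩ := mem_nb.1 hu
      exact nb_subset_sep (mem_nb.2 ⟨k1, hBX u (hnb u hu), y, hsub hy, ha⟩)
    · push Not at hx
      have hCB : ∀ y ∈ C', y ∈ vs g \ B := fun y hy => by
        have := mem_sdiff.1 (comps_subset hC' hy)
        exact mem_sdiff.2 ⟨this.1, fun h => this.2 (mem_union_left _ (mem_sdiff.2 ⟨h, hx y hy⟩))⟩
      obtain ⟨v, hv⟩ := comps_nonempty hC'
      have hC := comp_mem_comps (g := g) (hCB v hv)
      have hsub : C' ⊆ comp g (vs g \ B) v := by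
        refine comps_side hP hC' (disjoint_left.2 fun y hy h => ?_) hv mem_comp_self
        exact comps_nb hC h (hCB y hy)
      generalize comp g (vs g \ B) v = C at hC hsub
      have hCs := comps_subset hC
      have e1 : sep g A (X \ cl g C) ⊆ sep g A X \ C ∪ nb g C ∩ X := by
        intro u hu
        obtain ⟨k1, k2⟩ := mem_sep.1 hu
        have k3 : u ∉ C := fun h => by
          rcases k1 with k | k
          · obtain ⟨-, -, x, hx, ha⟩ := mem_nb.1 k
            exact (mem_sdiff.1 hx).2 (mem_cl_of_adj h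
              (mem_sdiff.1 (hX (mem_sdiff.1 hx).1)).1 (adj_symm ha))
          · exact (mem_sdiff.1 (hCs h)).2 (hA k)
        by_cases k4 : u ∈ X
        · have k5 : u ∈ cl g C := by
            by_contra hn
            exact k2 (mem_sdiff.2 ⟨k4, hn⟩)
          exact mem_union_right _ (mem_inter.2 ⟨(mem_union.1 k5).resolve_left k3, k4⟩)
        · refine mem_union_left _ (mem_sdiff.2 ⟨mem_sep.2 ⟨k1.imp_left fun k => ?_, k4⟩, k3⟩)
          obtain ⟨k5, -, x, hx, ha⟩ := mem_nb.1 k
          exact mem_nb.2 ⟨k5, k4, x, (mem_sdiff.1 hx).1, ha⟩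
      have e2 : nb g C' ⊆ nb g C \ X ∪ sep g A X ∩ C := by
        intro u hu
        have k0 := hnb u hu
        obtain ⟨k1, -, y, hy, ha⟩ := mem_nb.1 hu
        by_cases k2 : u ∈ C
        · refine mem_union_right _ (mem_inter.2 ⟨(mem_union.1 k0).resolve_left fun h => ?_, k2⟩)
          exact (mem_sdiff.1 (hCs k2)).2 (mem_sdiff.1 h).1
        · exact mem_union_left _ (mem_sdiff.2 ⟨mem_nb.2 ⟨k1, k2, y, hsub hy, ha⟩, hBX u k0⟩)
      have c1 := (hmin _ (sdiff_subset.trans hX)).trans ((card_le_card e1).trans (card_union_le _ _))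
      have c2 := (card_le_card e2).trans (card_union_le _ _)
      have c3 := card_sdiff_add_card_inter (sep g A X) C
      have c4 := card_sdiff_add_card_inter (nb g C) X
      have c5 := b3 C hC
      omega
  · have e1 : B \ X ∪ sep g A X ⊆ B \ X ∪ sep g A X \ A := by
      intro u hu
      rcases mem_union.1 hu with h | h
      · exact mem_union_left _ h
      · by_cases k : u ∈ A
        · exact mem_union_left _ (mem_sdiff.2 ⟨hA k, (mem_sep.1 h).2⟩)
        · exact mem_union_right _ (mem_sdiff.2 ⟨h, k⟩)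
    have e2 : A ⊆ sep g A X ∩ A ∪ B ∩ X := by
      intro u hu
      by_cases k : u ∈ X
      · exact mem_union_right _ (mem_inter.2 ⟨hA hu, k⟩)
      · exact mem_union_left _ (mem_inter.2 ⟨mem_sep.2 ⟨Or.inr hu, k⟩, hu⟩)
    have c1 := (card_le_card e1).trans (card_union_le _ _)
    have c2 := (card_le_card e2).trans (card_union_le _ _)
    have c3 := card_sdiff_add_card_inter (sep g A X) A
    have c4 := card_sdiff_add_card_inter B X
    omega

/-- the bounded set that holds all vertices classified as outside -/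
def zs (g : Gr) (B S : Finset ℕ) : Finset ℕ :=
  S ∪ (S ∩ (vs g \ B)).biUnion fun s => nb g (comp g (vs g \ B) s)

theorem card_zs (hB : BI g q T B) (hS : S.card ≤ q) : (zs g B S).card ≤ q + q * q := by
  refine (card_union_le _ _).trans (Nat.add_le_add hS ?_)
  refine (card_biUnion_le_card_mul _ _ q fun s hs => ?_).trans
    (Nat.mul_le_mul_right _ ((card_le_card inter_subset_left).trans hS))
  exact hB.2.2 _ (comp_mem_comps (mem_inter.1 hs).2)

/-- invariant of the branch that follows a witness -/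
def RI (g : Gr) (B X S : Finset ℕ) (v : ℕ) (A D O : Finset ℕ) : Prop :=
  v ∈ A ∧ A ⊆ X ∩ B ∧ D ⊆ S ∧ D ∪ O ⊆ B \ X ∧ Disjoint O S ∧ D ∪ O ⊆ zs g B S

theorem front_mem (h : u ∈ front g B A D O) : u ∈ B ∧ u ∉ A ∧ u ∉ D ∪ O := by
  obtain ⟨h1, h2⟩ := mem_sdiff.1 h
  refine ⟨?_, fun k => (mem_nb.1 h1).2.1 (subset_reach k), h2⟩
  by_contra hn
  exact notMem_of_mem_nb_reach h1 (mem_sdiff.2 ⟨nb_subset h1, hn⟩)

theorem front_zs (hS : nb g X ⊆ S) (hA : A ⊆ X) (h : u ∈ front g B A D O) (hu : u ∉ X) :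
    u ∈ zs g B S := by
  obtain ⟨k1, -, y, hy, ha⟩ := mem_nb.1 (mem_sdiff.1 h).1
  have key := reach_ind (g := g) (P := vs g \ B) (A := A)
    (fun y => y ∈ X ∨ ∃ s ∈ S ∩ (vs g \ B), y ∈ comp g (vs g \ B) s) (fun a ha => Or.inl (hA ha))
    (fun a b h1 h2 h3 h4 => by
      by_cases hb : b ∈ X
      · exact Or.inl hb
      · rcases h1 with h1 | ⟨s, hs, h1⟩
        · exact Or.inr ⟨b, mem_inter.2 ⟨hS (mem_nb.2 ⟨h4, hb, a, h1, h2⟩), h3⟩, mem_comp_self⟩
        · exact Or.inr ⟨s, hs, reach_closed h1 h2 h3 h4⟩) y hy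
  rcases key with k | ⟨s, hs, k⟩
  · exact mem_union_left _ (hS (mem_nb.2 ⟨k1, hu, y, k, ha⟩))
  · refine mem_union_right _ (mem_biUnion.2 ⟨s, hs, mem_nb.2 ⟨k1, fun k2 => ?_, y, k, ha⟩⟩)
    exact (mem_sdiff.1 (comp_subset (mem_inter.1 hs).2 k2)).2 (front_mem h).1

theorem run_follow (hS : nb g X ⊆ S) (d : ℕ) : ∀ A D O, RI g B X S v A D O → ∃ i < 3 ^ d,
    ∃ j A' D' O', (bstp g B)^[d] (i, A, D, O) = (j, A', D', O') ∧ RI g B X S v A' D' O' ∧
      (front g B A' D' O' = ∅ ∨ A.card + (D ∪ O).card + d ≤ A'.card + (D' ∪ O').card) := by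
  induction d with
  | zero => exact fun A D O h => ⟨0, by simp, 0, A, D, O, rfl, h, Or.inr le_rfl⟩
  | succ d ih =>
    intro A D O h
    cases hf : (srt (front g B A D O)).head? with
    | none =>
      have e : front g B A D O = ∅ := by
        rw [← toFinset_srt (front g B A D O), List.head?_eq_none_iff.1 hf]; rfl
      refine ⟨0, by positivity, 0, A, D, O, Function.iterate_fixed ?_ _, h, Or.inl e⟩
      simp [bstp, hf]
    | some u =>
      have hu : u ∈ front g B A D O := mem_srt.1 (List.mem_of_mem_head? hf)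
      obtain ⟨k1, k2, k3⟩ := front_mem hu
      obtain ⟨r1, r2, r3, r4, r5, r6⟩ := h
      have hz := front_zs hS (r2.trans inter_subset_left) hu
      have fin : ∀ (e : ℕ) (A₁ D₁ O₁ : Finset ℕ), e < 3 → RI g B X S v A₁ D₁ O₁ →
          A.card + (D ∪ O).card + 1 ≤ A₁.card + (D₁ ∪ O₁).card →
          (∀ i, bstp g B (e + 3 * i, A, D, O) = (i, A₁, D₁, O₁)) → ∃ i < 3 ^ (d + 1),
          ∃ j A' D' O', (bstp g B)^[d + 1] (i, A, D, O) = (j, A', D', O') ∧
            RI g B X S v A' D' O' ∧ (front g B A' D' O' = ∅ ∨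
              A.card + (D ∪ O).card + (d + 1) ≤ A'.card + (D' ∪ O').card) := by
        intro e A₁ D₁ O₁ he h1 h2 h3
        obtain ⟨i, hi, j, A', D', O', h4, h5, h6⟩ := ih _ _ _ h1
        refine ⟨e + 3 * i, by rw [pow_succ]; omega, j, A', D', O', ?_, h5, h6.imp_right ?_⟩
        · rw [Function.iterate_succ_apply, h3, h4]
        · omega
      by_cases hX : u ∈ X
      · refine fin 0 (insert u A) D O (by omega) ⟨mem_insert_of_mem r1,
          insert_subset (mem_inter.2 ⟨hX, k1⟩) r2, r3, r4, r5, r6⟩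
          (by rw [card_insert_of_notMem k2]; omega) (fun i => ?_)
        simp [bstp, hf]
      · by_cases hs : u ∈ S
        · refine fin 1 A (insert u D) O (by omega) ⟨r1, r2, insert_subset hs r3, ?_, r5, ?_⟩
            (by rw [insert_union, card_insert_of_notMem k3]; omega) (fun i => ?_)
          · rw [insert_union]; exact insert_subset (mem_sdiff.2 ⟨k1, hX⟩) r4
          · rw [insert_union]; exact insert_subset (hz hX) r6
          · have e1 : (1 + 3 * i) % 3 = 1 := by omega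
            have e2 : (1 + 3 * i) / 3 = i := by omega
            simp [bstp, hf, e1, e2]
        · refine fin 2 A D (insert u O) (by omega) ⟨r1, r2, r3, ?_,
            disjoint_insert_left.2 ⟨hs, r5⟩, ?_⟩
            (by rw [union_insert, card_insert_of_notMem k3]; omega) (fun i => ?_)
          · rw [union_insert]; exact insert_subset (mem_sdiff.2 ⟨k1, hX⟩) r4
          · rw [union_insert]; exact insert_subset (hz hX) r6
          · have e1 : (2 + 3 * i) % 3 = 2 := by omega
            have e2 : (2 + 3 * i) / 3 = i := by omega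
            simp [bstp, hf, e1, e2]

theorem acc_of_wit (hB : BI g q T B) : ∀ (m : ℕ) (X S : Finset ℕ), X.card = m →
    Wit g q T B X S → ∃ v ∈ B, ∃ i < 3 ^ (q * q + 2 * q),
      acc g q T B ((bstp g B)^[q * q + 2 * q] (i, {v}, ∅, ∅)) = true := by
  intro m
  induction m using Nat.strong_induction_on with
  | _ m ih =>
  intro X S hm ⟨w1, w2, w3, w4, w5⟩
  obtain ⟨v, hv⟩ : (X ∩ B).Nonempty := by
    by_contra hn
    refine absurd (card_le_card (t := S) fun u hu => ?_) w5.not_ge
    obtain ⟨h1, h2⟩ := mem_inter.1 hu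
    exact (mem_union.1 h1).resolve_left fun h => hn ⟨u, mem_inter.2 ⟨h, h2⟩⟩
  obtain ⟨i, hi, j, A, D, O, h1, ⟨r1, r2, r3, r4, r5, r6⟩, h3⟩ :=
    run_follow (B := B) (v := v) w2 (q * q + 2 * q) {v} ∅ ∅
      ⟨mem_singleton_self v, singleton_subset_iff.2 hv, by simp, by simp, by simp, by simp⟩
  have hAX : A ⊆ X := r2.trans inter_subset_left
  have hD : D ⊆ B \ X := subset_union_left.trans r4
  have es : src B (j, A, D, O) = A ∪ D :=
    inter_eq_left.2 (union_subset (r2.trans inter_subset_right) (hD.trans sdiff_subset))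
  have ec : (A ∪ D).card = A.card + D.card :=
    card_union_of_disjoint (disjoint_left.2 fun a ha h => (mem_sdiff.1 (hD h)).2 (hAX ha))
  have hXT : X ⊆ vs g \ (T ∪ D) := fun x hx => mem_sdiff.2 ⟨(mem_sdiff.1 (w1 hx)).1, fun h =>
    (mem_union.1 h).elim (mem_sdiff.1 (w1 hx)).2 fun h => (mem_sdiff.1 (hD h)).2 hx⟩
  have e0 : sep g (A ∪ D) X ⊆ S := fun u hu => by
    obtain ⟨k1 | k1, k2⟩ := mem_sep.1 hu
    · exact w2 k1
    · exact r3 ((mem_union.1 k1).resolve_left fun h => k2 (hAX h))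
  have c0 := (cut_min (A := A ∪ D) hXT).trans (card_le_card e0)
  have goal : (sep g (A ∪ D) (cut g (A ∪ D) (T ∪ D))).card < A.card + D.card →
      ∃ v ∈ B, ∃ i < 3 ^ (q * q + 2 * q),
        acc g q T B ((bstp g B)^[q * q + 2 * q] (i, {v}, ∅, ∅)) = true := fun h => by
    refine ⟨v, (mem_inter.1 hv).2, i, hi, ?_⟩
    rw [h1]
    simp only [acc, off, es, ec, Bool.and_eq_true, Nat.ble_eq, Nat.blt_eq]
    exact ⟨c0.trans w4, h⟩
  rcases h3 with h3 | h3
  · have hK : ∀ u ∈ nb g (reach g (vs g \ B) A), u ∈ D ∪ O := fun u hu => by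
      by_contra hn
      have : u ∈ front g B A D O := mem_sdiff.2 ⟨hu, hn⟩
      simp [h3] at this
    have hKB : ∀ u ∈ reach g (vs g \ B) A, u ∈ B → u ∈ A := fun u hu h =>
      (mem_union.1 (reach_subset hu)).resolve_right fun k => (mem_sdiff.1 k).2 h
    have hAK : A ⊆ reach g (vs g \ B) A := subset_reach
    generalize reach g (vs g \ B) A = K at hK hKB hAK
    by_cases hw : (S \ K).card < ((X \ K ∪ S \ K) ∩ B).card
    · refine ih (X \ K).card ?_ (X \ K) (S \ K) rfl ⟨sdiff_subset.trans w1, fun u hu => ?_,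
        disjoint_of_subset_left sdiff_subset (disjoint_of_subset_right sdiff_subset w3),
        (card_le_card sdiff_subset).trans w4, hw⟩
      · rw [← hm]
        exact card_lt_card ⟨sdiff_subset, fun h => (mem_sdiff.1 (h (hAX r1))).2 (hAK r1)⟩
      · obtain ⟨k1, k2, x, hx, ha⟩ := mem_nb.1 hu
        obtain ⟨k3, k4⟩ := mem_sdiff.1 hx
        have k5 : u ∉ K := fun h => (mem_sdiff.1 (r4 (hK x (mem_nb.2
          ⟨(mem_sdiff.1 (w1 k3)).1, k4, u, h, adj_symm ha⟩)))).2 k3
        exact mem_sdiff.2 ⟨w2 (mem_nb.2 ⟨k1, fun h => k2 (mem_sdiff.2 ⟨h, k5⟩), x, k3, ha⟩), k5⟩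
    · have e1 : (X ∪ S) ∩ B ⊆ (X \ K ∪ S \ K) ∩ B ∪ A := fun u hu => by
        obtain ⟨k1, k2⟩ := mem_inter.1 hu
        by_cases k : u ∈ K
        · exact mem_union_right _ (hKB u k k2)
        · refine mem_union_left _ (mem_inter.2 ⟨?_, k2⟩)
          simp only [mem_union, mem_sdiff] at k1 ⊢
          tauto
      have e2 : sep g (A ∪ D) (X ∩ K) ⊆ D ∪ S ∩ K := fun u hu => by
        obtain ⟨k1 | k1, k2⟩ := mem_sep.1 hu
        · obtain ⟨k3, -, x, hx, ha⟩ := mem_nb.1 k1
          obtain ⟨k4, k5⟩ := mem_inter.1 hx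
          by_cases k : u ∈ K
          · exact mem_union_right _ (mem_inter.2
              ⟨w2 (mem_nb.2 ⟨k3, fun h => k2 (mem_inter.2 ⟨h, k⟩), x, k4, ha⟩), k⟩)
          · have k6 := hK u (mem_nb.2 ⟨k3, k, x, k5, ha⟩)
            refine mem_union_left _ ((mem_union.1 k6).resolve_right fun h => ?_)
            exact disjoint_left.1 r5 h (w2 (mem_nb.2 ⟨k3, (mem_sdiff.1 (r4 k6)).2, x, k4, ha⟩))
        · exact mem_union_left _ ((mem_union.1 k1).resolve_left
            fun h => k2 (mem_inter.2 ⟨hAX h, hAK h⟩))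
      have c1 := (card_le_card e1).trans (card_union_le _ _)
      have c2 := (cut_min (A := A ∪ D) (inter_subset_left.trans hXT)).trans
        ((card_le_card e2).trans (card_union_le _ _))
      have c3 := card_sdiff_add_card_inter S K
      exact goal (by omega)
  · have c1 := (card_le_card r6).trans (card_zs hB w4)
    simp only [card_singleton, union_idempotent, card_empty] at h3
    exact goal (by omega)

theorem mem_bagc {B' : Finset ℕ} : B' ∈ bagc g U q T B ↔ ∃ v ∈ B, ∃ i < U.length,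
    acc g q T B (run g B (U.take (q * q + 2 * q)) v i) = true ∧
    B \ off g T B (run g B (U.take (q * q + 2 * q)) v i) ∪
      sep g (src B (run g B (U.take (q * q + 2 * q)) v i))
        (off g T B (run g B (U.take (q * q + 2 * q)) v i)) = B' := by
  simp only [bagc, List.mem_flatMap, List.mem_map, List.mem_filter, mem_srt, List.mem_range]
  constructor
  · rintro ⟨v, hv, s, ⟨⟨i, hi, rfl⟩, h1⟩, h2⟩
    exact ⟨v, hv, i, hi, h1, h2⟩
  · rintro ⟨v, hv, i, hi, h1, h2⟩
    exact ⟨v, hv, _, ⟨⟨i, hi, rfl⟩, h1⟩, h2⟩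

theorem bagc_spec (hB : BI g q T B) {B' : Finset ℕ} (h : B' ∈ bagc g U q T B) :
    BI g q T B' ∧ B'.card < B.card := by
  obtain ⟨v, -, i, -, h1, rfl⟩ := mem_bagc.1 h
  simp only [acc, Bool.and_eq_true, Nat.ble_eq, Nat.blt_eq] at h1
  exact upd_spec hB inter_subset_right subset_union_left h1.1 h1.2

theorem bi_step (hB : BI g q T B) : BI g q T ((bagc g U q T B).headD B) := by
  cases h : bagc g U q T B with
  | nil => exact hB
  | cons y l => exact (bagc_spec hB (h ▸ List.mem_cons_self)).1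

theorem bi_vs (hT : T ⊆ vs g) : BI g q T (vs g) :=
  ⟨hT, Subset.rfl, fun C hC => by simp [mem_comps] at hC⟩

theorem bag_spec : BI g q (tg g I) (bag g U q I) ∧ bagc g U q (tg g I) (bag g U q I) = [] := by
  refine iter_fix _ (BI g q (tg g I)) (fun B => bagc g U q (tg g I) B = []) card
    (fun B hB => bi_step hB) (fun B _ h => by simp [h]) (fun B hB => ?_) _ _
    (bi_vs (fil_subset _ _)) (card_vs g).le
  cases h : bagc g U q (tg g I) B with
  | nil => exact Or.inl rfl
  | cons y l => exact Or.inr (bagc_spec hB (h ▸ List.mem_cons_self)).2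

theorem bag_no_wit (hU : 3 ^ (q * q + 2 * q) ≤ U.length) :
    ¬ Wit g q (tg g I) (bag g U q I) X S := fun h => by
  obtain ⟨v, hv, i, hi, ha⟩ := acc_of_wit bag_spec.1 _ X S rfl h
  have e : (U.take (q * q + 2 * q)).length = q * q + 2 * q := by
    rw [List.length_take]
    exact min_eq_left ((Nat.lt_pow_self (by omega)).le.trans hU)
  have := (mem_bagc (U := U) (T := tg g I)).2 ⟨v, hv, i, hi.trans_le hU, by rwa [run, e], rfl⟩
  simp [bag_spec.2] at this

theorem mem_tg : v ∈ tg g I ↔ v ∈ vs g ∧ (v ∈ I → ∀ u ∈ I, v ≤ u) := by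
  simp only [tg, mem_fil, Bool.or_eq_true, Bool.not_eq_true', memB_false, List.all_eq_true,
    mem_srt, Nat.ble_eq]
  tauto

/-- every separation of order at most `k` has a side with few vertices of the bag -/
theorem bag_few {k : ℕ} (hU : 3 ^ (q * q + 2 * q) ≤ U.length) (hq : q = 2 * k + 1)
    (hX : X ⊆ vs g) (h1 : nb g X ⊆ S) (h2 : Disjoint X S) (hS : S.card ≤ k)
    (h3 : (X ∩ (nb g I ∪ tg g I ∩ I)).card ≤ k + 1) :
    ((X ∪ S) ∩ bag g U q I ∩ cl g I).card ≤ q := by
  have c1 : (S ∪ X ∩ (nb g I ∪ tg g I ∩ I)).card ≤ q := (card_union_le _ _).trans (by omega)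
  have hn : ∀ v ∈ nb g I, v ∈ tg g I := fun v hv =>
    mem_tg.2 ⟨nb_subset hv, fun h => ((mem_nb.1 hv).2.1 h).elim⟩
  by_contra hc
  refine bag_no_wit (g := g) (I := I) (X := X \ tg g I) (S := S ∪ X ∩ (nb g I ∪ tg g I ∩ I)) hU
    ⟨sdiff_subset_sdiff hX Subset.rfl, fun u hu => ?_, disjoint_left.2 fun u hu h => ?_, c1,
      c1.trans_lt ((not_le.1 hc).trans_le (card_le_card fun u hu => ?_))⟩
  · obtain ⟨k1, k2, x, hx, ha⟩ := mem_nb.1 hu
    obtain ⟨k3, k4⟩ := mem_sdiff.1 hx
    by_cases k : u ∈ X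
    · refine mem_union_right _ (mem_inter.2 ⟨k, ?_⟩)
      by_cases k5 : u ∈ I
      · refine mem_union_right _ (mem_inter.2 ⟨?_, k5⟩)
        by_contra k6
        exact k2 (mem_sdiff.2 ⟨k, k6⟩)
      · refine mem_union_left _ (mem_nb.2 ⟨k1, k5, x, ?_, ha⟩)
        by_contra k6
        exact k4 (mem_tg.2 ⟨hX k3, fun h => (k6 h).elim⟩)
    · exact mem_union_left _ (h1 (mem_nb.2 ⟨k1, k, x, k3, ha⟩))
  · obtain ⟨k1, k2⟩ := mem_sdiff.1 hu
    rcases mem_union.1 h with h | h
    · exact disjoint_left.1 h2 k1 h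
    · exact k2 ((mem_union.1 (mem_inter.1 h).2).elim (hn u) fun h => (mem_inter.1 h).1)
  · simp only [mem_inter, mem_union, mem_sdiff, cl] at hu ⊢
    tauto

section pt
variable {α : Type} [Enc α]

@[fun_prop] theorem pt_front {g : α → Gr} {B A D O : α → Finset ℕ} (hg : PT g) (hB : PT B)
    (hA : PT A) (hD : PT D) (hO : PT O) : PT (fun a => front (g a) (B a) (A a) (D a) (O a)) := by
  unfold front; fun_prop

@[fun_prop] theorem pt_bstp {g : α → Gr} {B : α → Finset ℕ} {s : α → St} (hg : PT g) (hB : PT B)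
    (hs : PT s) : PT (fun a => bstp (g a) (B a) (s a)) := by
  unfold bstp; fun_prop

@[fun_prop] theorem pt_run {g : α → Gr} {B : α → Finset ℕ} {l : α → List Unit} {v i : α → ℕ}
    (hg : PT g) (hB : PT B) (hl : PT l) (hv : PT v) (hi : PT i) :
    PT (fun a => run (g a) (B a) (l a) (v a) (i a)) := by
  have hV : PT fun a => insert (v a) (vs (g a)) := by fun_prop
  refine PT.iterate_inv (f := fun a s => bstp (g a) (B a) s) (by fun_prop) hl (by fun_prop)
    (fun a s => s.1 ≤ i a ∧ s.2.1 ⊆ insert (v a) (vs (g a)) ∧ s.2.2.1 ⊆ insert (v a) (vs (g a)) ∧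
      s.2.2.2 ⊆ insert (v a) (vs (g a))) (fun a => by simp) (fun a s hs => ?_)
    (fun a => 4 * size (i a) + 3 * size (insert (v a) (vs (g a))) + 3)
    ((((PB.const 4).mul hi.size_le).add ((PB.const 3).mul hV.size_le)).add (PB.const 3))
    (fun a s hs => ?_)
  · unfold bstp
    cases hf : (srt (front (g a) (B a) s.2.1 s.2.2.1 s.2.2.2)).head? with
    | none => exact hs
    | some u =>
      have hu : u ∈ insert (v a) (vs (g a)) := mem_insert_of_mem
        (nb_subset (mem_sdiff.1 (mem_srt.1 (List.mem_of_mem_head? hf))).1)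
      have h3 := (Nat.div_le_self s.1 3).trans hs.1
      simp only [Option.elim]
      cases s.1 % 3 == 0
      · cases s.1 % 3 == 1
        · exact ⟨h3, hs.2.1, hs.2.2.1, insert_subset hu hs.2.2.2⟩
        · exact ⟨h3, hs.2.1, insert_subset hu hs.2.2.1, hs.2.2.2⟩
      · exact ⟨h3, insert_subset hu hs.2.1, hs.2.2.1, hs.2.2.2⟩
  · have h1 := size_nat_mono hs.1
    have h2 := size_mono hs.2.1
    have h3 := size_mono hs.2.2.1
    have h4 := size_mono hs.2.2.2
    rw [size_prod, size_prod, size_prod]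
    omega

@[fun_prop] theorem pt_src {B : α → Finset ℕ} {s : α → St} (hB : PT B) (hs : PT s) :
    PT (fun a => src (B a) (s a)) := by
  unfold src; fun_prop

@[fun_prop] theorem pt_off {g : α → Gr} {T B : α → Finset ℕ} {s : α → St} (hg : PT g)
    (hT : PT T) (hB : PT B) (hs : PT s) : PT (fun a => off (g a) (T a) (B a) (s a)) := by
  unfold off; fun_prop

@[fun_prop] theorem pt_acc {g : α → Gr} {q : α → ℕ} {T B : α → Finset ℕ} {s : α → St} (hg : PT g)
    (hq : PT q) (hT : PT T) (hB : PT B) (hs : PT s) :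
    PT (fun a => acc (g a) (q a) (T a) (B a) (s a)) := by
  unfold acc; fun_prop

@[fun_prop] theorem pt_bagc {g : α → Gr} {U : α → List Unit} {q : α → ℕ} {T B : α → Finset ℕ}
    (hg : PT g) (hU : PT U) (hq : PT q) (hT : PT T) (hB : PT B) :
    PT (fun a => bagc (g a) (U a) (q a) (T a) (B a)) := by
  have h : PT fun p : α × ℕ => List.range (U p.1).length := PT.rangeLength (by fun_prop)
  unfold bagc; fun_prop

@[fun_prop] theorem pt_tg {g : α → Gr} {I : α → Finset ℕ} (hg : PT g) (hI : PT I) :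
    PT (fun a => tg (g a) (I a)) := by
  unfold tg; fun_prop

@[fun_prop] theorem pt_bag {g : α → Gr} {U : α → List Unit} {q : α → ℕ} {I : α → Finset ℕ}
    (hg : PT g) (hU : PT U) (hq : PT q) (hI : PT I) :
    PT (fun a => bag (g a) (U a) (q a) (I a)) :=
  PT.iterate_inv (f := fun a B => (bagc (g a) (U a) (q a) (tg (g a) (I a)) B).headD B)
    (by fun_prop) (PT.fst hg) (pt_vs hg) (fun a B => BI (g a) (q a) (tg (g a) (I a)) B)
    (fun _ => bi_vs (fil_subset _ _)) (fun _ _ h => bi_step h) _ (pt_vs hg).size_le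
    (fun _ _ h => size_mono h.2.1)

end pt

end Pool.Agent.P.MP_8c536d_lc.XA
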