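import Pool.Agent.P.MP_8c536d_lc.XA.Gr

/-!
Minimum vertex cuts in polynomial time, through a maximum matching.
-/

namespace Pool.Agent.P.MP_8c536d_lc.XA

open Finset Pool.Agent.Lib.Helper47

/-- matchings, as lists of pairs -/
abbrev Mt : Type := List (ℕ × ℕ)

/-- all pairs of vertices -/
def prs (g : Gr) : Mt := (srt (vs g)).flatMap fun u => (srt (vs g)).map fun v => (u, v)
/-- equal or adjacent -/
def edg (g : Gr) (u v : ℕ) : Bool := u == v || adj g u v
/-- match `r` with `u` -/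
def ext (g : Gr) (M : Mt) (u r : ℕ) : Mt :=
  (prs g).filter fun p => p == (u, r) || (M.contains p && p.2 != r)
/-- matched left vertices -/
def lft (M : Mt) : Finset ℕ := (M.map fun p => p.1).toFinset
/-- matched right vertices -/
def rgt (M : Mt) : Finset ℕ := (M.map fun p => p.2).toFinset
/-- reached left vertices -/
def rch (Q : List (ℕ × Mt)) : Finset ℕ := (Q.map fun x => x.1).toFinset
/-- candidates for the next reached vertex -/
def bcand (g : Gr) (M : Mt) (Q : List (ℕ × Mt)) : List (ℕ × Mt) :=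
  Q.flatMap fun x => (M.filter fun p => edg g x.1 p.2 && !memB p.1 (rch Q)).map fun p =>
    (p.1, ext g x.2 x.1 p.2)
/-- the search: each reached vertex carries a matching that leaves it free -/
def bfs (g : Gr) (T : Finset ℕ) (M : Mt) : List (ℕ × Mt) :=
  (fun Q => (bcand g M Q).take 1 ++ Q)^[g.1.length]
    ((srt ((vs g \ T) \ lft M)).map fun u => (u, M))
/-- larger matchings -/
def acand (g : Gr) (A T : Finset ℕ) (M : Mt) : List Mt :=
  (bfs g T M).flatMap fun x =>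
    (srt (fil ((vs g \ A) \ rgt M) fun r => edg g x.1 r)).map fun r => ext g x.2 x.1 r
/-- a maximum matching -/
def mm (g : Gr) (A T : Finset ℕ) : Mt := (fun M => (acand g A T M).headD M)^[g.1.length] []
/-- the source side of a minimum cut -/
def cut (g : Gr) (A T : Finset ℕ) : Finset ℕ := rch (bfs g T (mm g A T))

/-- the list is a matching -/
def Mat (g : Gr) (A T : Finset ℕ) (M : Mt) : Prop :=
  (∀ p ∈ M, p.1 ∈ vs g \ T ∧ p.2 ∈ vs g \ A ∧ edg g p.1 p.2 = true) ∧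
    ∀ p ∈ M, ∀ q ∈ M, (p.1 = q.1 ↔ p.2 = q.2)

/-- invariant of the search -/
def QI (g : Gr) (A T : Finset ℕ) (M : Mt) (Q : List (ℕ × Mt)) : Prop :=
  (∀ x ∈ Q, x.1 ∈ vs g \ T ∧ Mat g A T x.2 ∧ x.1 ∉ lft x.2 ∧ rgt x.2 = rgt M ∧
    ∀ p ∈ M, p.1 ∉ rch Q → p ∈ x.2) ∧ (vs g \ T) \ lft M ⊆ rch Q

variable {g : Gr} {A T X : Finset ℕ} {M N : Mt} {Q : List (ℕ × Mt)} {u r : ℕ} {p : ℕ × ℕ}

theorem mem_prs : p ∈ prs g ↔ p.1 ∈ vs g ∧ p.2 ∈ vs g := by
  obtain ⟨a, b⟩ := p
  simp [prs]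

theorem mem_lft : u ∈ lft M ↔ ∃ p ∈ M, p.1 = u := by simp only [lft, List.mem_toFinset, List.mem_map]
theorem mem_rgt : u ∈ rgt M ↔ ∃ p ∈ M, p.2 = u := by simp only [rgt, List.mem_toFinset, List.mem_map]
theorem mem_rch : u ∈ rch Q ↔ ∃ x ∈ Q, x.1 = u := by simp only [rch, List.mem_toFinset, List.mem_map]

theorem mem_ext (hN : Mat g A T N) (hu : u ∈ vs g \ T) (hr : r ∈ vs g \ A) :
    p ∈ ext g N u r ↔ p = (u, r) ∨ p ∈ N ∧ p.2 ≠ r := by
  simp only [ext, List.mem_filter, Bool.or_eq_true, beq_iff_eq, Bool.and_eq_true,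
    List.contains_iff_mem, bne_iff_ne, ne_eq, mem_prs]
  refine ⟨fun h => h.2, fun h => ⟨?_, h⟩⟩
  rcases h with rfl | h
  · exact ⟨(mem_sdiff.1 hu).1, (mem_sdiff.1 hr).1⟩
  · exact ⟨(mem_sdiff.1 (hN.1 p h.1).1).1, (mem_sdiff.1 (hN.1 p h.1).2.1).1⟩

theorem mat_ext (hN : Mat g A T N) (hu : u ∈ vs g \ T) (hr : r ∈ vs g \ A) (hf : u ∉ lft N)
    (he : edg g u r = true) : Mat g A T (ext g N u r) := by
  refine ⟨fun p hp => ?_, fun p hp q hq => ?_⟩
  · rcases (mem_ext hN hu hr).1 hp with rfl | h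
    · exact ⟨hu, hr, he⟩
    · exact hN.1 p h.1
  · rcases (mem_ext hN hu hr).1 hp with rfl | h1 <;> rcases (mem_ext hN hu hr).1 hq with rfl | h2
    · simp
    · exact ⟨fun e => (hf (mem_lft.2 ⟨q, h2.1, e.symm⟩)).elim, fun e => (h2.2 e.symm).elim⟩
    · exact ⟨fun e => (hf (mem_lft.2 ⟨p, h1.1, e⟩)).elim, fun e => (h1.2 e).elim⟩
    · exact hN.2 p h1.1 q h2.1

theorem rgt_ext (hN : Mat g A T N) (hu : u ∈ vs g \ T) (hr : r ∈ vs g \ A) :
    rgt (ext g N u r) = insert r (rgt N) := by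
  ext y
  simp only [mem_rgt, mem_insert, mem_ext hN hu hr]
  constructor
  · rintro ⟨p, rfl | h, rfl⟩
    · exact Or.inl rfl
    · exact Or.inr ⟨p, h.1, rfl⟩
  · rintro (rfl | ⟨p, h, rfl⟩)
    · exact ⟨_, Or.inl rfl, rfl⟩
    · by_cases e : p.2 = r
      · exact ⟨_, Or.inl rfl, e.symm⟩
      · exact ⟨p, Or.inr ⟨h, e⟩, rfl⟩

theorem mem_bcand {y : ℕ × Mt} : y ∈ bcand g M Q ↔ ∃ x ∈ Q, ∃ p ∈ M, edg g x.1 p.2 = true ∧
    p.1 ∉ rch Q ∧ (p.1, ext g x.2 x.1 p.2) = y := by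
  simp only [bcand, List.mem_flatMap, List.mem_map, List.mem_filter, Bool.and_eq_true,
    Bool.not_eq_true', memB_false, and_assoc]

theorem rch_cons (y : ℕ × Mt) (Q : List (ℕ × Mt)) : rch (y :: Q) = insert y.1 (rch Q) := by
  simp [rch]

theorem qi_cons (hM : Mat g A T M) (hQ : QI g A T M Q) {y : ℕ × Mt} (hy : y ∈ bcand g M Q) :
    QI g A T M (y :: Q) := by
  obtain ⟨x, hx, p, hp, he, hn, rfl⟩ := mem_bcand.1 hy
  obtain ⟨h1, h2, h3, h4, h5⟩ := hQ.1 x hx
  have hpx := h5 p hp hn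
  have hr := (hM.1 p hp).2.1
  refine ⟨fun z hz => ?_, hQ.2.trans (by rw [rch_cons]; exact subset_insert _ _)⟩
  rcases List.mem_cons.1 hz with rfl | hz
  · refine ⟨(hM.1 p hp).1, mat_ext h2 h1 hr h3 he, fun h => ?_, ?_, fun q hq hn' => ?_⟩
    · obtain ⟨q, hq, e⟩ := mem_lft.1 h
      rcases (mem_ext h2 h1 hr).1 hq with rfl | hq
      · exact hn (mem_rch.2 ⟨x, hx, e⟩)
      · exact hq.2 ((h2.2 q hq.1 p hpx).1 e)
    · rw [rgt_ext h2 h1 hr, h4]
      exact insert_eq_of_mem (mem_rgt.2 ⟨p, hp, rfl⟩)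
    · rw [rch_cons, mem_insert, not_or] at hn'
      exact (mem_ext h2 h1 hr).2 (Or.inr ⟨h5 q hq hn'.2,
        fun e => hn'.1 ((hM.2 q hq p hp).2 e)⟩)
  · obtain ⟨k1, k2, k3, k4, k5⟩ := hQ.1 z hz
    refine ⟨k1, k2, k3, k4, fun q hq hn' => k5 q hq fun h => hn' ?_⟩
    rw [rch_cons]
    exact mem_insert_of_mem h

theorem bfs_spec (hM : Mat g A T M) : QI g A T M (bfs g T M) ∧ bcand g M (bfs g T M) = [] := by
  refine iter_fix _ (QI g A T M) (fun Q => bcand g M Q = []) (fun Q => (vs g \ rch Q).card)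
    (fun Q hQ => ?_) (fun Q _ h => by simp [h]) (fun Q hQ => ?_) _ _ ⟨fun x hx => ?_, ?_⟩
    ((card_le_card sdiff_subset).trans (card_vs g).le)
  · cases h : bcand g M Q with
    | nil => simpa using hQ
    | cons y l => simpa using qi_cons hM hQ (h ▸ List.mem_cons_self)
  · cases h : bcand g M Q with
    | nil => exact Or.inl rfl
    | cons y l =>
      right
      obtain ⟨x, -, p, hp, -, hn, rfl⟩ := mem_bcand.1 (h ▸ List.mem_cons_self : y ∈ bcand g M Q)
      simp only [List.take_succ_cons, List.take_zero, List.cons_append, List.nil_append, rch_cons]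
      refine card_lt_card ⟨sdiff_subset_sdiff Subset.rfl (subset_insert _ _), fun hs => ?_⟩
      exact (mem_sdiff.1 (hs (mem_sdiff.2 ⟨(mem_sdiff.1 (hM.1 p hp).1).1, hn⟩))).2
        (mem_insert_self _ _)
  · obtain ⟨u, hu, rfl⟩ := List.mem_map.1 hx
    have := mem_sdiff.1 (mem_srt.1 hu)
    exact ⟨this.1, hM, this.2, rfl, fun p hp _ => hp⟩
  · intro u hu
    exact mem_rch.2 ⟨(u, M), List.mem_map.2 ⟨u, mem_srt.2 hu, rfl⟩, rfl⟩

theorem mem_acand : N ∈ acand g A T M ↔ ∃ x ∈ bfs g T M, ∃ r, r ∈ vs g \ A ∧ r ∉ rgt M ∧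
    edg g x.1 r = true ∧ ext g x.2 x.1 r = N := by
  simp only [acand, List.mem_flatMap, List.mem_map, mem_srt, mem_fil, mem_sdiff (s := vs g \ A),
    and_assoc]

theorem mm_spec : Mat g A T (mm g A T) ∧ acand g A T (mm g A T) = [] := by
  have key : ∀ M, Mat g A T M → ∀ N ∈ acand g A T M,
      Mat g A T N ∧ (vs g \ rgt N).card < (vs g \ rgt M).card := by
    intro M hM N hN
    obtain ⟨x, hx, r, h1, h2, h3, rfl⟩ := mem_acand.1 hN
    obtain ⟨k1, k2, k3, k4, -⟩ := (bfs_spec hM).1.1 x hx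
    refine ⟨mat_ext k2 k1 h1 k3 h3, ?_⟩
    rw [rgt_ext k2 k1 h1, k4]
    refine card_lt_card ⟨sdiff_subset_sdiff Subset.rfl (subset_insert _ _), fun hs => ?_⟩
    exact (mem_sdiff.1 (hs (mem_sdiff.2 ⟨(mem_sdiff.1 h1).1, h2⟩))).2 (mem_insert_self _ _)
  refine iter_fix _ (Mat g A T) (fun M => acand g A T M = []) (fun M => (vs g \ rgt M).card)
    (fun M hM => ?_) (fun M _ h => by simp [h]) (fun M hM => ?_) _ _ ⟨by simp, by simp⟩
    ((card_le_card sdiff_subset).trans (card_vs g).le)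
  · cases h : acand g A T M with
    | nil => simpa using hM
    | cons y l => simpa using (key M hM y (h ▸ List.mem_cons_self)).1
  · cases h : acand g A T M with
    | nil => exact Or.inl rfl
    | cons y l => exact Or.inr (by simpa using (key M hM y (h ▸ List.mem_cons_self)).2)

theorem edg_iff {v : ℕ} (hX : X ⊆ vs g) (hv : v ∈ vs g) :
    (∃ u ∈ X, edg g u v = true) ↔ v ∈ cl g X := by
  simp only [edg, Bool.or_eq_true, beq_iff_eq, mem_cl]
  constructor
  · rintro ⟨u, hu, rfl | h⟩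
    · exact Or.inl hu
    · exact Or.inr ⟨hv, u, hu, h⟩
  · rintro (h | ⟨-, u, hu, h⟩)
    · exact ⟨v, h, Or.inl rfl⟩
    · exact ⟨u, hu, Or.inr h⟩

theorem card_mates (hM : Mat g A T M) (Y : Finset ℕ) :
    ((M.toFinset.filter fun p => p.1 ∈ Y).image fun p => p.2).card = (Y ∩ lft M).card := by
  have e : Y ∩ lft M = (M.toFinset.filter fun p => p.1 ∈ Y).image fun p => p.1 := by
    ext y
    simp only [mem_inter, mem_lft, mem_image, mem_filter, List.mem_toFinset]
    exact ⟨fun ⟨h, p, hp, e⟩ => ⟨p, ⟨hp, e ▸ h⟩, e⟩, fun ⟨p, hp, e⟩ => ⟨e ▸ hp.2, p, hp.1, e⟩⟩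
  rw [e, card_image_of_injOn, card_image_of_injOn]
  · intro p hp q hq e
    have h1 := List.mem_toFinset.1 (mem_filter.1 (mem_coe.1 hp)).1
    have h2 := List.mem_toFinset.1 (mem_filter.1 (mem_coe.1 hq)).1
    exact Prod.ext e ((hM.2 p h1 q h2).1 e)
  · intro p hp q hq e
    have h1 := List.mem_toFinset.1 (mem_filter.1 (mem_coe.1 hp)).1
    have h2 := List.mem_toFinset.1 (mem_filter.1 (mem_coe.1 hq)).1
    exact Prod.ext ((hM.2 p h1 q h2).2 e) e

theorem cut_subset : cut g A T ⊆ vs g \ T := fun u hu => by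
  obtain ⟨x, hx, rfl⟩ := mem_rch.1 hu
  exact ((bfs_spec (A := A) mm_spec.1).1.1 x hx).1

theorem cut_def (hX : X ⊆ vs g \ T) :
    (cl g (cut g A T) \ A).card + X.card ≤ (cl g X \ A).card + (cut g A T).card := by
  obtain ⟨hM, ha⟩ := mm_spec (g := g) (A := A) (T := T)
  obtain ⟨hQ, hb⟩ := bfs_spec hM
  have hc : cut g A T ⊆ vs g := cut_subset.trans sdiff_subset
  have hX' : X ⊆ vs g := hX.trans sdiff_subset
  have h1 : cl g (cut g A T) \ A ⊆
      ((mm g A T).toFinset.filter fun p => p.1 ∈ cut g A T).image fun p => p.2 := by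
    intro r hr
    have hv := cl_subset hc (mem_sdiff.1 hr).1
    obtain ⟨u, hu, he⟩ := (edg_iff hc hv).2 (mem_sdiff.1 hr).1
    obtain ⟨x, hx, rfl⟩ := mem_rch.1 hu
    have h2 : r ∈ rgt (mm g A T) := by
      by_contra hn
      have : ext g x.2 x.1 r ∈ acand g A T (mm g A T) :=
        mem_acand.2 ⟨x, hx, r, mem_sdiff.2 ⟨hv, (mem_sdiff.1 hr).2⟩, hn, he, rfl⟩
      simp [ha] at this
    obtain ⟨p, hp, rfl⟩ := mem_rgt.1 h2
    refine mem_image.2 ⟨p, mem_filter.2 ⟨List.mem_toFinset.2 hp, ?_⟩, rfl⟩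
    by_contra hn
    have : (p.1, ext g x.2 x.1 p.2) ∈ bcand g (mm g A T) (bfs g T (mm g A T)) :=
      mem_bcand.2 ⟨x, hx, p, hp, he, hn, rfl⟩
    simp [hb] at this
  have h2 : (((mm g A T).toFinset.filter fun p => p.1 ∈ X).image fun p => p.2) ⊆ cl g X \ A := by
    intro r hr
    obtain ⟨p, hp, rfl⟩ := mem_image.1 hr
    obtain ⟨k1, k2⟩ := mem_filter.1 hp
    obtain ⟨-, k3, k4⟩ := hM.1 p (List.mem_toFinset.1 k1)
    exact mem_sdiff.2 ⟨(edg_iff hX' (mem_sdiff.1 k3).1).1 ⟨_, k2, k4⟩, (mem_sdiff.1 k3).2⟩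
  have h3 : X \ lft (mm g A T) ⊆ cut g A T \ lft (mm g A T) := fun u hu =>
    mem_sdiff.2 ⟨hQ.2 (sdiff_subset_sdiff hX Subset.rfl hu), (mem_sdiff.1 hu).2⟩
  have c1 := card_le_card h1
  have c2 := card_le_card h2
  have c3 := card_le_card h3
  rw [card_mates hM] at c1 c2
  have c4 := card_sdiff_add_card_inter X (lft (mm g A T))
  have c5 := card_sdiff_add_card_inter (cut g A T) (lft (mm g A T))
  omega

/-- the separator that belongs to the side `X` -/
def sep (g : Gr) (A X : Finset ℕ) : Finset ℕ := (cl g X ∪ A) \ X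

theorem card_sep (g : Gr) (A X : Finset ℕ) :
    (sep g A X).card + X.card = (cl g X \ A).card + A.card := by
  rw [sep, card_sdiff_add_card, card_sdiff_add_card,
    union_eq_left.2 (subset_cl.trans subset_union_left)]

/-- the cut is a minimum one -/
theorem cut_min (hX : X ⊆ vs g \ T) : (sep g A (cut g A T)).card ≤ (sep g A X).card := by
  have h1 := cut_def (A := A) hX
  have h2 := card_sep g A X
  have h3 := card_sep g A (cut g A T)
  omega

section pt
variable {α σ β : Type} [Enc α] [Enc σ] [Enc β]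

theorem pt_iter_add {f : α → σ → σ} {l : α → List β} {s : α → σ}
    (hf : PT (fun p : α × σ => f p.1 p.2)) (hl : PT l) (hs : PT s)
    (G : α → ℕ) (hG : PS G) (hgrow : ∀ a t, size (f a t) ≤ size t + G a) :
    PT (fun a => (f a)^[(l a).length] (s a)) :=
  (PT.foldl_add (f := fun a t (_ : β) => f a t)
    (hf.comp (g := fun p : α × σ × β => (p.1, p.2.1)) (by fun_prop)) hl hs G hG
    (fun a t _ _ => hgrow a t)).of_eq (fun _ => PT.foldl_const_eq_iterate _ _ _)

@[fun_prop] theorem pt_prs {g : α → Gr} (hg : PT g) : PT (fun a => prs (g a)) := by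
  unfold prs; fun_prop

@[fun_prop] theorem pt_edg {g : α → Gr} {u v : α → ℕ} (hg : PT g) (hu : PT u) (hv : PT v) :
    PT (fun a => edg (g a) (u a) (v a)) := by
  unfold edg; fun_prop

@[fun_prop] theorem pt_ext {g : α → Gr} {M : α → Mt} {u v : α → ℕ} (hg : PT g) (hM : PT M)
    (hu : PT u) (hv : PT v) : PT (fun a => ext (g a) (M a) (u a) (v a)) := by
  unfold ext; fun_prop

@[fun_prop] theorem pt_lft {M : α → Mt} (hM : PT M) : PT (fun a => lft (M a)) := by
  unfold lft; fun_prop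

@[fun_prop] theorem pt_rgt {M : α → Mt} (hM : PT M) : PT (fun a => rgt (M a)) := by
  unfold rgt; fun_prop

@[fun_prop] theorem pt_rch {Q : α → List (ℕ × Mt)} (hQ : PT Q) : PT (fun a => rch (Q a)) := by
  unfold rch; fun_prop

@[fun_prop] theorem pt_bcand {g : α → Gr} {M : α → Mt} {Q : α → List (ℕ × Mt)} (hg : PT g)
    (hM : PT M) (hQ : PT Q) : PT (fun a => bcand (g a) (M a) (Q a)) := by
  unfold bcand; fun_prop

theorem size_ext (g : Gr) (M : Mt) (u r : ℕ) : size (ext g M u r) ≤ size (prs g) :=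
  size_sublist List.filter_sublist

@[fun_prop] theorem pt_bfs {g : α → Gr} {T : α → Finset ℕ} {M : α → Mt} (hg : PT g)
    (hT : PT T) (hM : PT M) : PT (fun a => bfs (g a) (T a) (M a)) := by
  refine pt_iter_add (f := fun a Q => (bcand (g a) (M a) Q).take 1 ++ Q) (by fun_prop)
    (PT.fst hg) (by fun_prop) (fun a => size (M a) + size (prs (g a)) + 2)
    ((hM.size_le.add (pt_prs hg).size_le).add (PB.const 2)) (fun a Q => ?_)
  cases h : bcand (g a) (M a) Q with
  | nil => simp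
  | cons y l =>
    obtain ⟨x, -, p, hp, -, -, rfl⟩ := mem_bcand.1 (h ▸ List.mem_cons_self : y ∈ bcand _ _ Q)
    have h1 := size_ext (g a) x.2 x.1 p.2
    have h2 := size_lt_of_mem hp
    have h3 := size_prod p
    simp only [List.take_succ_cons, List.take_zero, List.cons_append, List.nil_append, size_cons,
      size_pair]
    omega

@[fun_prop] theorem pt_acand {g : α → Gr} {A T : α → Finset ℕ} {M : α → Mt} (hg : PT g)
    (hA : PT A) (hT : PT T) (hM : PT M) : PT (fun a => acand (g a) (A a) (T a) (M a)) := by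
  unfold acand; fun_prop

@[fun_prop] theorem pt_mm {g : α → Gr} {A T : α → Finset ℕ} (hg : PT g)
    (hA : PT A) (hT : PT T) : PT (fun a => mm (g a) (A a) (T a)) := by
  refine PT.iterate_inv (f := fun a M => (acand (g a) (A a) (T a) M).headD M) (by fun_prop)
    (PT.fst hg) (PT.const _) (fun a M => size M ≤ size (prs (g a))) (fun a => size_pos _)
    (fun a M hM => ?_) _ (pt_prs hg).size_le (fun _ _ h => h)
  cases h : acand (g a) (A a) (T a) M with
  | nil => exact hM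
  | cons y l =>
    obtain ⟨x, -, r, -, -, -, rfl⟩ := mem_acand.1 (h ▸ List.mem_cons_self : y ∈ acand _ _ _ M)
    exact size_ext _ _ _ _

@[fun_prop] theorem pt_cut {g : α → Gr} {A T : α → Finset ℕ} (hg : PT g)
    (hA : PT A) (hT : PT T) : PT (fun a => cut (g a) (A a) (T a)) := by
  unfold cut; fun_prop

@[fun_prop] theorem pt_sep {g : α → Gr} {A X : α → Finset ℕ} (hg : PT g)
    (hA : PT A) (hX : PT X) : PT (fun a => sep (g a) (A a) (X a)) := by
  unfold sep; fun_prop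

end pt

end Pool.Agent.P.MP_8c536d_lc.XA
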