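import Pool.Agent.P.MP_8c536d_lc.XA.Tab

/-!
The dynamic program over the nodes.
-/

namespace Pool.Agent.P.MP_8c536d_lc.XA

open Finset Pool.Agent.Lib.Helper47

/-- tables for all nodes -/
abbrev Tb : Type := List (Finset ℕ × List (Finset ℕ))

/-- the table of a node -/
def look (F : Tb) (C : Finset ℕ) : List (Finset ℕ) :=
  (F.filter fun e => e.1 == C).flatMap fun e => e.2

/-- unions of the neighbourhoods of at most `c` members of the list -/
def cands (g : Gr) (l : List (Finset ℕ)) : ℕ → List (Finset ℕ)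
  | 0 => [∅]
  | c + 1 => (cands g l c).flatMap fun W => W :: l.map fun C => W ∪ nb g C

/-- the children with a given neighbourhood outside `W` -/
def grp (g : Gr) (l : List (Finset ℕ)) (W K : Finset ℕ) : List (Finset ℕ) :=
  l.filter fun C => nb g C \ W == K

/-- the table of a group of children -/
def gtab (g : Gr) (F : Tb) (l : List (Finset ℕ)) (W K : Finset ℕ) : List (Finset ℕ) :=
  ∅ :: prod g (K ∪ W) ((grp g l W K).map (look F))

/-- the neighbourhoods outside `W` -/
def keys (g : Gr) (l : List (Finset ℕ)) (W : Finset ℕ) : List (Finset ℕ) :=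
  (l.map fun C => nb g C \ W).dedup

/-- sets that avoid the bag -/
def p0 (g : Gr) (c : ℕ) (F : Tb) (l : List (Finset ℕ)) : List (Finset ℕ) :=
  (cands g l c).flatMap fun W => prod g W ((keys g l W).map (gtab g F l W))

/-- the same with their opposite sides -/
def ptab (g : Gr) (U : List Unit) (q c : ℕ) (F : Tb) (I : Finset ℕ) : List (Finset ℕ) :=
  p0 g c F (ch g U q I) ++ (p0 g c F (ch g U q I)).map fun X => I \ cl g X

/-- the new table of a node -/
def full (g : Gr) (U : List Unit) (q c : ℕ) (F : Tb) (I : Finset ℕ) : List (Finset ℕ) :=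
  prune g (nb g I) (((nodes g U q).flatMap fun J => prod g (nb g I ∪ nb g J)
    (ptab g U q c F J :: (comps g (I \ cl g J)).map fun C => [∅, C])).filter fun X => subB X I)

/-- the tables after some rounds -/
def tabs (g : Gr) (U : List Unit) (q c : ℕ) (l : List Unit) : Tb :=
  (fun F => (nodes g U q).map fun I => (I, full g U q c F I))^[l.length] []

/-- `S` separates `X` from the rest -/
def Sep (g : Gr) (S X : Finset ℕ) : Prop := X ⊆ vs g ∧ Disjoint X S ∧ nb g X ⊆ S

variable {g : Gr} {U : List Unit} {q c k lam θ τ E : ℕ} {I J C X Y S M W K P : Finset ℕ} {F : Tb}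
  {l : List (Finset ℕ)}

theorem mem_look_round (hI : I ∈ nodes g U q) :
    X ∈ look ((nodes g U q).map fun I => (I, full g U q c F I)) I ↔ X ∈ full g U q c F I := by
  simp only [look, List.mem_flatMap, List.mem_filter, List.mem_map, beq_iff_eq]
  constructor
  · rintro ⟨e, ⟨⟨J, -, rfl⟩, rfl⟩, h⟩
    exact h
  · exact fun h => ⟨_, ⟨⟨I, hI, rfl⟩, rfl⟩, h⟩

theorem greedy (c : ℕ) : ∃ W ∈ cands g l c, W ⊆ M ∧
    ((∀ C ∈ l, nb g C ⊆ M → (nb g C \ W).card ≤ θ) ∨ c * (θ + 1) ≤ W.card) := by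
  induction c with
  | zero => exact ⟨∅, by simp [cands], empty_subset _, Or.inr (by simp)⟩
  | succ c ih =>
    obtain ⟨W, h1, h2, h3⟩ := ih
    by_cases h : ∀ C ∈ l, nb g C ⊆ M → (nb g C \ W).card ≤ θ
    · exact ⟨W, List.mem_flatMap.2 ⟨W, h1, List.mem_cons_self⟩, h2, Or.inl h⟩
    · have h4 := h3.resolve_left h
      push Not at h
      obtain ⟨C, hC, h5, h6⟩ := h
      refine ⟨W ∪ nb g C, List.mem_flatMap.2 ⟨W, h1, List.mem_cons_of_mem _
        (List.mem_map.2 ⟨C, hC, rfl⟩)⟩, union_subset h2 h5, Or.inr ?_⟩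
      have := card_sdiff_add_card (nb g C) W
      rw [union_comm] at this
      rw [add_mul]
      omega

theorem mem_grp : C ∈ grp g l W K ↔ C ∈ l ∧ nb g C \ W = K := by simp [grp]

theorem mem_keys : K ∈ keys g l W ↔ ∃ C ∈ l, nb g C \ W = K := by simp [keys]

open Classical in
theorem gtab_dm (hP : P ⊆ vs g) (hq : ∀ C ∈ comps g P, (nb g C).card ≤ q)
    (h : ∀ C ∈ comps g P, Dm g (nb g C) X S lam (look F C) C 0) (hK : K ∈ keys g (comps g P) W) :
    Dm g W X S lam (gtab g F (comps g P) W K) (un (grp g (comps g P) W K))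
      (if ∃ C ∈ grp g (comps g P) W K, (X ∩ C).Nonempty then q else 0) := by
  have h1 := Dm.prod (g := g) (Fr := K ∪ W) (X := X) (S := S) (lam := lam)
    (l := grp g (comps g P) W K) (t := look F) (r := id) (c := fun _ => 0)
    (fun C hC => (h C (mem_grp.1 hC).1).mono (by
      rw [← (mem_grp.1 hC).2, sdiff_union_self_eq_union, sdiff_eq_empty_iff_subset.2
        subset_union_left]
      simp)) (fun C hC => (comps_subset (mem_grp.1 hC).1).trans hP)
    (by rw [List.map_id]; exact (pairwise_comps hP).filter _)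
  rw [List.map_id] at h1
  have hc : ((K ∪ W) \ W).card ≤ q := by
    obtain ⟨C, hC, rfl⟩ := mem_keys.1 hK
    refine (card_le_card fun u hu => ?_).trans (hq C hC)
    simp only [mem_sdiff, mem_union] at hu
    tauto
  obtain ⟨h2, Y, hY, h3, h4⟩ := h1.mono (Fr' := W) (lam' := lam) (p' := q) (by simpa using hc)
  refine ⟨fun Z hZ => ?_, ?_⟩
  · rcases List.mem_cons.1 hZ with rfl | hZ
    · exact empty_subset _
    · exact h2 Z hZ
  · split_ifs with hp
    · exact ⟨Y, List.mem_cons_of_mem _ hY, h3, h4⟩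
    · refine ⟨∅, List.mem_cons_self, ?_, by simp⟩
      rw [card_eq_zero.2]
      · exact Nat.zero_le _
      · by_contra hn
        obtain ⟨x, hx⟩ := nonempty_iff_ne_empty.2 hn
        obtain ⟨C, hC, k⟩ := mem_un.1 (mem_inter.1 hx).2
        exact hp ⟨C, hC, x, mem_inter.2 ⟨(mem_inter.1 hx).1, k⟩⟩

open Classical in
theorem keys_dm (hP : P ⊆ vs g) (hq : ∀ C ∈ comps g P, (nb g C).card ≤ q)
    (h : ∀ C ∈ comps g P, Dm g (nb g C) X S lam (look F C) C 0) (W : Finset ℕ) :
    Dm g W X S lam (prod g W ((keys g (comps g P) W).map (gtab g F (comps g P) W))) P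
      (((keys g (comps g P) W).toFinset.filter fun K =>
        ∃ C ∈ grp g (comps g P) W K, (X ∩ C).Nonempty).card * q) := by
  have hn : (keys g (comps g P) W).Nodup := List.nodup_dedup _
  have h1 := Dm.prod (l := keys g (comps g P) W) (fun K hK => gtab_dm hP hq h hK)
    (fun K _ x hx => by
      obtain ⟨C, hC, k⟩ := mem_un.1 hx
      exact hP (comps_subset (mem_grp.1 hC).1 k))
    (List.pairwise_map.2 (hn.imp fun {K K'} hne => disjoint_left.2 fun x h1 h2 => by
      obtain ⟨C, hC, k⟩ := mem_un.1 h1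
      obtain ⟨D, hD, k'⟩ := mem_un.1 h2
      obtain ⟨a1, a2⟩ := mem_grp.1 hC
      obtain ⟨b1, b2⟩ := mem_grp.1 hD
      rw [← comps_eq_comp hP a1 k] at a2
      rw [← comps_eq_comp hP b1 k'] at b2
      exact hne (a2.symm.trans b2)))
  have e1 : un ((keys g (comps g P) W).map fun K => un (grp g (comps g P) W K)) = P := by
    ext x
    simp only [mem_un, List.mem_map]
    constructor
    · rintro ⟨_, ⟨K, -, rfl⟩, hx⟩
      obtain ⟨C, hC, k⟩ := mem_un.1 hx
      exact comps_subset (mem_grp.1 hC).1 k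
    · intro hx
      exact ⟨_, ⟨_, mem_keys.2 ⟨_, comp_mem_comps hx, rfl⟩, rfl⟩,
        mem_un.2 ⟨_, mem_grp.2 ⟨comp_mem_comps hx, rfl⟩, mem_comp_self⟩⟩
  rw [e1, ← List.sum_toFinset _ hn, ← sum_filter, sum_const, smul_eq_mul] at h1
  exact h1

theorem p0_dm (hI : I ⊆ vs g) (hX : Sep g S X) (hS : S.card ≤ k)
    (hM : ((X ∪ S) ∩ bag g U q I ∩ cl g I).card ≤ q) (hθ : q < c * (θ + 1))
    (hτ : ∀ M : Finset ℕ, M.card ≤ q → (M.powerset.filter fun A => A.card ≤ θ).card ≤ τ)
    (h : ∀ C ∈ ch g U q I, Dm g (nb g C) X S lam (look F C) C 0) :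
    Dm g (nb g I) X S lam (p0 g c F (ch g U q I)) I ((k + τ + 1) * q) := by
  classical
  have hP : vs g \ bag g U q I ⊆ vs g := sdiff_subset
  have hPI : vs g \ bag g U q I ⊆ I := fun x hx => ch_subset (comp_mem_comps hx) mem_comp_self
  have hk := keys_dm hP (fun C hC => ch_nb hC) h
  refine ⟨fun Y hY => ?_, ?_⟩
  · obtain ⟨W, -, hY⟩ := List.mem_flatMap.1 hY
    exact ((hk W).1 Y hY).trans hPI
  obtain ⟨W, w1, w2, w3⟩ := greedy (g := g) (l := ch g U q I) (θ := θ)
    (M := (X ∪ S) ∩ bag g U q I ∩ cl g I) c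
  have w4 := (card_le_card w2).trans hM
  have w5 := w3.resolve_right (by omega)
  obtain ⟨-, Y, hY, h1, h2⟩ := hk W
  have hc : (((keys g (ch g U q I) W).toFinset.filter fun K =>
      ∃ C ∈ grp g (ch g U q I) W K, (X ∩ C).Nonempty).card) ≤ k + τ := by
    refine (card_le_card (t := (S.image fun s => nb g (comp g (vs g \ bag g U q I) s) \ W) ∪
      (((X ∪ S) ∩ bag g U q I ∩ cl g I).powerset.filter fun A => A.card ≤ θ)) fun K hK => ?_).trans
      ((card_union_le _ _).trans (Nat.add_le_add (card_image_le.trans hS) (hτ _ hM)))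
    obtain ⟨C, hC, x, hx⟩ := (mem_filter.1 hK).2
    obtain ⟨a1, rfl⟩ := mem_grp.1 hC
    by_cases hs : Disjoint C S
    · have hCX := comps_side hP a1 (disjoint_of_subset_right hX.2.2 hs) (mem_inter.1 hx).2
        (mem_inter.1 hx).1
      have hn : nb g C ⊆ (X ∪ S) ∩ bag g U q I ∩ cl g I := fun u hu => by
        obtain ⟨k1, -, y, hy, ha⟩ := mem_nb.1 hu
        refine mem_inter.2 ⟨mem_inter.2 ⟨?_, ?_⟩, mem_cl_of_adj (ch_subset a1 hy) k1 ha⟩
        · exact union_subset_union Subset.rfl hX.2.2 (mem_cl_of_adj (hCX hy) k1 ha)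
        · by_contra k2
          exact comps_nb a1 hu (mem_sdiff.2 ⟨k1, k2⟩)
      exact mem_union_right _ (mem_filter.2 ⟨mem_powerset.2 (sdiff_subset.trans hn), w5 C a1 hn⟩)
    · obtain ⟨s, s1, s2⟩ := not_disjoint_iff.1 hs
      exact mem_union_left _ (mem_image.2 ⟨s, s2, by rw [comps_eq_comp hP a1 s1]⟩)
  have c1 := Nat.mul_le_mul_right q hc
  have c2 : X ∩ I ⊆ X ∩ (vs g \ bag g U q I) ∪ (X ∪ S) ∩ bag g U q I ∩ cl g I := fun u hu => by
    have := hI (mem_inter.1 hu).2
    simp only [mem_inter, mem_union, mem_sdiff, cl] at hu ⊢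
    tauto
  have c3 := (card_le_card c2).trans (card_union_le _ _)
  have c4 := Nat.mul_le_mul_left lam (card_le_card (inter_subset_inter_left (s := S) hPI))
  have c5 := card_le_card (inter_subset_inter_left (s := X ∪ S) hPI)
  have c6 := cost_le g W (nb g I) Y
  have c7 := card_le_card (sdiff_subset (s := W) (t := nb g I))
  refine ⟨Y, List.mem_flatMap.2 ⟨W, w1, hY⟩, ?_, ?_⟩ <;> rw [add_mul (k + τ), one_mul] <;>
    unfold ch at c1 <;> omega

theorem Sep.compl (hX : Sep g S X) : Sep g S (vs g \ (X ∪ S)) := by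
  refine ⟨sdiff_subset, disjoint_left.2 fun x hx h => (mem_sdiff.1 hx).2 (mem_union_right _ h),
    fun u hu => ?_⟩
  obtain ⟨k1, k2, y, hy, ha⟩ := mem_nb.1 hu
  obtain ⟨k3, k4⟩ := mem_sdiff.1 hy
  have k5 : u ∈ X ∪ S := by
    by_contra hn
    exact k2 (mem_sdiff.2 ⟨k1, hn⟩)
  exact (mem_union.1 k5).resolve_left fun h => k4
    (union_subset_union Subset.rfl hX.2.2 (mem_cl_of_adj h k3 (adj_symm ha)))

theorem ptab_dm (hU : 3 ^ (q * q + 2 * q) ≤ U.length) (hq : q = 2 * k + 1)
    (hI : I ∈ nodes g U q) (hX : Sep g S X) (hS : S.card ≤ k) (hθ : q < c * (θ + 1))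
    (hτ : ∀ M : Finset ℕ, M.card ≤ q → (M.powerset.filter fun A => A.card ≤ θ).card ≤ τ)
    (h : ∀ X, Sep g S X → ∀ C ∈ ch g U q I, Dm g (nb g C) X S lam (look F C) C 0) :
    Dm g (nb g I) X S lam (ptab g U q c F I) I ((k + τ + 1) * q) := by
  obtain ⟨hv, hn⟩ := nodes_good hI
  have hZ := hX.compl
  have hsub : (∀ Y ∈ p0 g c F (ch g U q I), Y ⊆ I) → ∀ Y ∈ ptab g U q c F I, Y ⊆ I := by
    intro h1 Y hY
    rcases List.mem_append.1 hY with hY | hY
    · exact h1 Y hY
    · obtain ⟨Z, -, rfl⟩ := List.mem_map.1 hY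
      exact sdiff_subset
  have c1 : (tg g I ∩ I).card ≤ 1 := card_le_one.2 fun a ha b hb =>
    le_antisymm ((mem_tg.1 (mem_inter.1 ha).1).2 (mem_inter.1 ha).2 b (mem_inter.1 hb).2)
      ((mem_tg.1 (mem_inter.1 hb).1).2 (mem_inter.1 hb).2 a (mem_inter.1 ha).2)
  have c2 := card_union_le (nb g I) (tg g I ∩ I)
  by_cases h1 : (X ∩ (nb g I ∪ tg g I ∩ I)).card ≤ k + 1
  · obtain ⟨h2, Y, hY, h3⟩ := p0_dm hv hX hS (bag_few hU hq hX.1 hX.2.2 hX.2.1 hS h1) hθ hτ (h X hX)
    exact ⟨hsub h2, Y, List.mem_append_left _ hY, h3⟩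
  · have c3 : vs g \ (X ∪ S) ∩ (nb g I ∪ tg g I ∩ I) ⊆ (nb g I ∪ tg g I ∩ I) \ X := fun u hu =>
      mem_sdiff.2 ⟨(mem_inter.1 hu).2, fun k =>
        (mem_sdiff.1 (mem_inter.1 hu).1).2 (mem_union_left _ k)⟩
    have c4 := card_le_card c3
    have c5 := card_sdiff_add_card_inter (nb g I ∪ tg g I ∩ I) X
    rw [inter_comm _ X] at c5
    obtain ⟨h2, Y, hY, h3, h4⟩ := p0_dm hv hZ hS
      (bag_few hU hq hZ.1 hZ.2.2 hZ.2.1 hS (by omega)) hθ hτ (h _ hZ)
    have hYI := h2 Y hY
    refine ⟨hsub h2, I \ cl g Y, List.mem_append_right _ (List.mem_map.2 ⟨Y, hY, rfl⟩), ?_, ?_⟩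
    · have e1 : (vs g \ (X ∪ S) ∪ S) ∩ I ⊆ I \ X := fun u hu => by
        obtain ⟨k1, k2⟩ := mem_inter.1 hu
        refine mem_sdiff.2 ⟨k2, fun k3 => (mem_union.1 k1).elim
          (fun k4 => (mem_sdiff.1 k4).2 (mem_union_left _ k3)) (disjoint_left.1 hX.2.1 k3)⟩
      have e2 : I ∩ cl g Y ⊆ cl g Y \ nb g I := fun u hu =>
        mem_sdiff.2 ⟨(mem_inter.1 hu).2, fun k => (mem_nb.1 k).2.1 (mem_inter.1 hu).1⟩
      have d1 := card_le_card e1
      have d2 := card_le_card e2
      have d3 := card_sdiff_add_card_inter I X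
      have d4 := card_sdiff_add_card_inter I (cl g Y)
      rw [inter_comm] at d3
      unfold cost at h4
      omega
    · have e1 : cl g (I \ cl g Y) \ nb g I ⊆ I \ Y := fun u hu => by
        obtain ⟨k1, k2⟩ := mem_sdiff.1 hu
        rcases mem_cl.1 k1 with k | ⟨k3, y, hy, ha⟩
        · exact sdiff_subset_sdiff Subset.rfl subset_cl k
        · obtain ⟨k4, k5⟩ := mem_sdiff.1 hy
          refine mem_sdiff.2 ⟨?_, fun k => k5 (mem_cl_of_adj k (hv k4) (adj_symm ha))⟩
          by_contra k6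
          exact k2 (mem_nb.2 ⟨k3, k6, y, k4, ha⟩)
      have e2 : I ⊆ vs g \ (X ∪ S) ∩ I ∪ (X ∪ S) ∩ I := fun u hu => by
        have := hv hu
        simp only [mem_inter, mem_union, mem_sdiff]
        tauto
      have d1 := card_le_card e1
      have d2 := (card_le_card e2).trans (card_union_le _ _)
      have d3 := card_sdiff_add_card_eq_card hYI
      unfold cost
      omega

theorem full_dm (hI : I ∈ nodes g U q) (hJ : J ∈ nodes g U q) (hJI : J ⊆ I) (hS : S ∩ I ⊆ J)
    (hX : Sep g S X) (h : Dm g (nb g J) X S 0 (ptab g U q c F J) J E) :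
    Dm g (nb g I) X S 0 (full g U q c F I) I (E + (nb g J).card) := by
  have hv := (nodes_good hI).1
  have hP : I \ cl g J ⊆ vs g := sdiff_subset.trans hv
  have h1 := Dm.prod (g := g) (Fr := nb g I ∪ nb g J) (X := X) (S := S) (lam := 0)
    (l := comps g (I \ cl g J)) (t := fun C => [∅, C]) (r := id) (c := fun _ => 0)
    (fun C hC => by
      refine ⟨by simp, ?_⟩
      by_cases hx : (X ∩ C).Nonempty
      · obtain ⟨x, hx⟩ := hx
        have hCX := comps_side hP hC (disjoint_left.2 fun y hy k => by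
          obtain ⟨k1, k2⟩ := mem_sdiff.1 (comps_subset hC hy)
          exact k2 (subset_cl (hS (mem_inter.2 ⟨hX.2.2 k, k1⟩)))) (mem_inter.1 hx).2
          (mem_inter.1 hx).1
        refine ⟨C, by simp, (card_le_card inter_subset_right).trans (Nat.le_add_right _ _),
          (card_le_card fun u hu => ?_).trans (Nat.le_add_right _ _)⟩
        obtain ⟨k1, k2⟩ := mem_sdiff.1 hu
        rcases mem_union.1 k1 with k | k
        · exact mem_inter.2 ⟨mem_union_left _ (hCX k), k⟩
        · exfalso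
          obtain ⟨k3, -, y, hy, ha⟩ := mem_nb.1 k
          obtain ⟨k4, k5⟩ := mem_sdiff.1 (comps_subset hC hy)
          refine comps_nb hC k (mem_sdiff.2 ⟨?_, fun k6 => ?_⟩)
          · by_contra k6
            exact k2 (mem_union_left _ (mem_nb.2 ⟨k3, k6, y, k4, ha⟩))
          · rcases mem_union.1 k6 with k6 | k6
            · exact k5 (mem_cl_of_adj k6 (hv k4) (adj_symm ha))
            · exact k2 (mem_union_right _ k6)
      · exact ⟨∅, by simp, by simp [not_nonempty_iff_eq_empty.1 hx], by simp⟩)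
    (fun C hC => (comps_subset hC).trans hP) (by rw [List.map_id]; exact pairwise_comps hP)
  have e1 : un ((comps g (I \ cl g J)).map id) = I \ cl g J := by
    ext x
    rw [List.map_id, mem_un]
    exact ⟨fun ⟨C, hC, k⟩ => comps_subset hC k,
      fun hx => ⟨_, comp_mem_comps hx, mem_comp_self⟩⟩
  rw [e1] at h1
  have hsub : J ∪ I \ cl g J ⊆ I := union_subset hJI sdiff_subset
  obtain ⟨h2, Y, hY, h3, h4⟩ := (h.mono (Fr' := nb g I ∪ nb g J) (lam' := 0) (p' := E) (by
    rw [sdiff_eq_empty_iff_subset.2 subset_union_right]; simp)).cons h1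
    (disjoint_left.2 fun x hx k => (mem_sdiff.1 k).2 (subset_cl hx)) (hsub.trans hv)
  have hYI := (h2 Y hY).trans hsub
  obtain ⟨Z, hZ, h5, h6⟩ := prune_dom (g := g) (Fr := nb g I)
    (L := ((nodes g U q).flatMap fun J => prod g (nb g I ∪ nb g J)
      (ptab g U q c F J :: (comps g (I \ cl g J)).map fun C => [∅, C])).filter fun X => subB X I)
    (Y := Y) (List.mem_filter.2 ⟨List.mem_flatMap.2 ⟨J, hJ, hY⟩, subB_iff.2 hYI⟩) (hYI.trans hv)
  refine ⟨fun W hW => subB_iff.1 (List.mem_filter.1 (prune_mem hW).1).2, Z, hZ, ?_, ?_⟩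
  · have e2 : X ∩ I ⊆ X ∩ (J ∪ I \ cl g J) ∪ nb g J := fun u hu => by
      simp only [mem_inter, mem_union, mem_sdiff, cl] at hu ⊢
      tauto
    have := (card_le_card e2).trans (card_union_le _ _)
    simp only [zero_mul, List.map_const', List.sum_replicate, smul_eq_mul, mul_zero] at h3 ⊢
    omega
  · have c1 := cost_le g (nb g I ∪ nb g J) (nb g I) Y
    have c2 : (nb g I ∪ nb g J) \ nb g I ⊆ nb g J := fun u hu =>
      (mem_union.1 (mem_sdiff.1 hu).1).resolve_left (mem_sdiff.1 hu).2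
    have c3 := card_le_card c2
    have c4 := card_le_card (inter_subset_inter_left (s := X ∪ S) hsub)
    simp only [zero_mul, List.map_const', List.sum_replicate, smul_eq_mul, mul_zero] at h4 ⊢
    omega

theorem ch_empty : ch g U q ∅ = [] :=
  List.eq_nil_iff_forall_not_mem.2 fun _ h => by simpa using ch_card (empty_subset _) h

theorem empty_mem_cands (c : ℕ) : ∅ ∈ cands g l c := by
  induction c with
  | zero => simp [cands]
  | succ c ih => exact List.mem_flatMap.2 ⟨∅, ih, List.mem_cons_self⟩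

theorem ptab_empty : Dm g (nb g ∅) X S 0 (ptab g U q c F ∅) ∅ 0 := by
  have h : ∀ Y, Y ∈ p0 g c F (ch g U q ∅) ↔ Y = ∅ := fun Y => by
    simp only [p0, ch_empty, keys, List.map_nil, List.dedup_nil, prod, List.foldr_nil,
      List.mem_flatMap, List.mem_singleton]
    exact ⟨fun ⟨_, _, h⟩ => h, fun h => ⟨∅, empty_mem_cands c, h⟩⟩
  refine ⟨fun Y hY => ?_, ∅, List.mem_append_left _ ((h ∅).2 rfl), by simp, by simp⟩
  rcases List.mem_append.1 hY with hY | hY
  · exact ((h Y).1 hY).subset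
  · obtain ⟨Z, -, rfl⟩ := List.mem_map.1 hY
    exact sdiff_subset

theorem tabs_dm (hU : 3 ^ (q * q + 2 * q) ≤ U.length) (hq : q = 2 * k + 1) (hS : S.card ≤ k)
    (hθ : q < c * (θ + 1))
    (hτ : ∀ M : Finset ℕ, M.card ≤ q → (M.powerset.filter fun A => A.card ≤ θ).card ≤ τ) (r : ℕ) :
    ∀ I ∈ nodes g U q, (S ∩ I).card < r → ∀ X, Sep g S X → Dm g (nb g I) X S 0
      (look ((fun F => (nodes g U q).map fun I => (I, full g U q c F I))^[r] []) I) I
      ((k + τ + 2) * q * (S ∩ I).card ^ 2) := by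
  classical
  induction r with
  | zero => intro I _ h; omega
  | succ r ih =>
    intro I hI hr X hX
    rw [Function.iterate_succ_apply']
    generalize (fun F => (nodes g U q).map fun I => (I, full g U q c F I))^[r] [] = F at ih ⊢
    suffices h : Dm g (nb g I) X S 0 (full g U q c F I) I ((k + τ + 2) * q * (S ∩ I).card ^ 2) by
      obtain ⟨h1, Y, hY, h2⟩ := h
      exact ⟨fun Z hZ => h1 Z ((mem_look_round hI).1 hZ), Y, (mem_look_round hI).2 hY, h2⟩
    rcases Nat.eq_zero_or_pos (S ∩ I).card with h0 | h0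
    · exact (full_dm hI empty_mem_nodes (empty_subset _) (card_eq_zero.1 h0).subset hX
        ptab_empty).mono (by simp)
    · obtain ⟨J, hJ, hm⟩ := exists_min_image
        ((nodes g U q).toFinset.filter fun J => J ⊆ I ∧ S ∩ I ⊆ J) card
        ⟨I, mem_filter.2 ⟨List.mem_toFinset.2 hI, Subset.rfl, inter_subset_right⟩⟩
      obtain ⟨j1, j2, j3⟩ := mem_filter.1 hJ
      rw [List.mem_toFinset] at j1
      have eJ : S ∩ J = S ∩ I := Subset.antisymm (inter_subset_inter_left j2)
        (subset_inter inter_subset_left j3)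
      obtain ⟨j, hj⟩ : ∃ j, (S ∩ I).card = j + 1 := ⟨_, (Nat.succ_pred_eq_of_pos h0).symm⟩
      have h1 := ptab_dm (c := c) (F := F) (lam := (k + τ + 2) * q * j) hU hq j1 hX hS hθ hτ
        (fun X hX C hC => by
          have hCI := (ch_subset hC).trans j2
          have hlt : (S ∩ C).card < (S ∩ I).card := by
            refine card_lt_card ⟨inter_subset_inter_left hCI, fun hs => ?_⟩
            have := hm C (mem_filter.2 ⟨List.mem_toFinset.2 (ch_mem_nodes j1 hC), hCI,
              hs.trans inter_subset_right⟩)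
            exact absurd (ch_card (nodes_good j1).1 hC) this.not_gt
          refine (ih C (ch_mem_nodes j1 hC) (by omega) X hX).mono ?_
          have := Nat.mul_le_mul_left ((k + τ + 2) * q)
            (Nat.mul_le_mul_right (S ∩ C).card (show (S ∩ C).card ≤ j by omega))
          simpa [sq, mul_assoc] using this)
      refine (full_dm hI j1 j2 j3 hX (h1.mono (Fr' := nb g J) (lam' := 0)
        (p' := (k + τ + 2) * q * j * (j + 1) + (k + τ + 1) * q) (by simp [eJ, hj]))).mono ?_
      have h2 := (nodes_good j1).2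
      simp only [zero_mul, sdiff_self, bot_eq_empty, card_empty, hj]
      nlinarith [Nat.zero_le ((k + τ + 2) * q * j)]

section pt
variable {α : Type} [Enc α]

@[fun_prop] theorem pt_look {F : α → Tb} {C : α → Finset ℕ} (hF : PT F) (hC : PT C) :
    PT (fun a => look (F a) (C a)) := by
  unfold look; fun_prop

@[fun_prop] theorem pt_cands {g : α → Gr} {l : α → List (Finset ℕ)} (c : ℕ) (hg : PT g)
    (hl : PT l) : PT (fun a => cands (g a) (l a) c) := by
  induction c with
  | zero => exact PT.const _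
  | succ c ih => unfold cands; fun_prop

@[fun_prop] theorem pt_grp {g : α → Gr} {l : α → List (Finset ℕ)} {W K : α → Finset ℕ}
    (hg : PT g) (hl : PT l) (hW : PT W) (hK : PT K) :
    PT (fun a => grp (g a) (l a) (W a) (K a)) := by
  unfold grp; fun_prop

@[fun_prop] theorem pt_gtab {g : α → Gr} {F : α → Tb} {l : α → List (Finset ℕ)}
    {W K : α → Finset ℕ} (hg : PT g) (hF : PT F) (hl : PT l) (hW : PT W) (hK : PT K) :
    PT (fun a => gtab (g a) (F a) (l a) (W a) (K a)) := by
  unfold gtab; fun_prop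

@[fun_prop] theorem pt_keys {g : α → Gr} {l : α → List (Finset ℕ)} {W : α → Finset ℕ}
    (hg : PT g) (hl : PT l) (hW : PT W) : PT (fun a => keys (g a) (l a) (W a)) := by
  unfold keys; fun_prop

@[fun_prop] theorem pt_p0 {g : α → Gr} {F : α → Tb} {l : α → List (Finset ℕ)} (c : ℕ)
    (hg : PT g) (hF : PT F) (hl : PT l) : PT (fun a => p0 (g a) c (F a) (l a)) := by
  unfold p0; fun_prop

@[fun_prop] theorem pt_ptab {g : α → Gr} {U : α → List Unit} {q : α → ℕ} {F : α → Tb}
    {I : α → Finset ℕ} (c : ℕ) (hg : PT g) (hU : PT U) (hq : PT q) (hF : PT F) (hI : PT I) :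
    PT (fun a => ptab (g a) (U a) (q a) c (F a) (I a)) := by
  unfold ptab; fun_prop

@[fun_prop] theorem pt_full {g : α → Gr} {U : α → List Unit} {q : α → ℕ} {F : α → Tb}
    {I : α → Finset ℕ} (c : ℕ) (hg : PT g) (hU : PT U) (hq : PT q) (hF : PT F) (hI : PT I) :
    PT (fun a => full (g a) (U a) (q a) c (F a) (I a)) := by
  unfold full; fun_prop

@[fun_prop] theorem pt_tabs {g : α → Gr} {U l : α → List Unit} {q : α → ℕ} (c : ℕ)
    (hg : PT g) (hU : PT U) (hq : PT q) (hl : PT l) :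
    PT (fun a => tabs (g a) (U a) (q a) c (l a)) := by
  have hN := (pt_nodes hg hU hq).size_le
  refine PT.iterate_inv (f := fun a F => (nodes (g a) (U a) (q a)).map fun I =>
    (I, full (g a) (U a) (q a) c F I)) (by fun_prop) hl (PT.const _)
    (fun a F => size F ≤ size (nodes (g a) (U a) (q a)) * (size (nodes (g a) (U a) (q a)) +
      (((g a).1.length + 1) * (size (vs (g a)) + 1) + 1) + 1 + 1) + 1)
    (fun a => Nat.le_add_left _ _) (fun a F _ => ?_) _
    ((hN.mul (((hN.add (ps_tab hg)).add (PB.const 1)).add (PB.const 1))).add (PB.const 1))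
    (fun _ _ h => h)
  refine (size_list_le fun e he => ?_).trans (Nat.add_le_add_right (Nat.mul_le_mul_right _
    (by rw [List.length_map]; exact (length_lt_size _).le)) _)
  obtain ⟨I, hI, rfl⟩ := List.mem_map.1 he
  rw [size_pair]
  exact Nat.add_le_add_right (Nat.add_le_add (size_lt_of_mem hI).le (size_prune _ _ _)) _

end pt

end Pool.Agent.P.MP_8c536d_lc.XA
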