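import Pool.Agent.P.MP_8c536d_lc.XA.Dp

/-!
The approximation algorithm, its guarantee and its running time.
-/

namespace Pool.Agent.P.MP_8c536d_lc.XA

open Finset Pool.Agent.Lib.Helper47 Pool.Agent.Lib.Helper33

/-- at most `m` elements of `Y` -/
def tk (m : ℕ) (Y : Finset ℕ) : Finset ℕ := ((srt Y).take m).toFinset

/-- the first side, trimmed -/
def sd1 (g : Gr) (Y : Finset ℕ) : Finset ℕ := tk ((vs g \ cl g Y).card + 1) Y
/-- the second side, trimmed -/
def sd2 (g : Gr) (Y : Finset ℕ) : Finset ℕ := tk (Y.card + 1) (vs g \ cl g Y)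

/-- bound for the number of small subsets -/
def tau (c t k : ℕ) : ℕ := t ^ ((2 * k + 1) / c) * (t + 1) ^ (2 * k + 1) / t ^ (2 * k + 1)

/-- the guarantee, `τ` being a bound for the number of small subsets -/
def thr (τ k : ℕ) : ℕ := k + 2 * ((k + τ + 2) * (2 * k + 1) * (k * k))

/-- the algorithm -/
def algo (c : ℕ) (U : List Unit) (g : Gr) (k th : ℕ) : List Bool :=
  ((look (tabs g U (2 * k + 1) c (U.take (k + 1))) (vs g)).find? fun Y =>
    subB Y (vs g) && Nat.ble g.1.length ((sd1 g Y ∪ sd2 g Y).card + th)).elim [false] fun Y =>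
      true :: (srt (vs g)).map fun i => !memB i (sd1 g Y ∪ sd2 g Y)

theorem tk_subset (m : ℕ) (Y : Finset ℕ) : tk m Y ⊆ Y := fun _ h =>
  mem_srt.1 (List.mem_of_mem_take (List.mem_toFinset.1 h))

theorem card_tk (m : ℕ) (Y : Finset ℕ) : (tk m Y).card = min m Y.card := by
  rw [tk, List.toFinset_card_of_nodup ((nodup_srt Y).sublist (List.take_sublist _ _)),
    List.length_take, length_srt]

theorem card_small_le {t q θ : ℕ} (ht : 0 < t) (M : Finset ℕ) (hM : M.card ≤ q) :
    (M.powerset.filter fun A => A.card ≤ θ).card ≤ t ^ θ * (t + 1) ^ q / t ^ q := by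
  rw [Nat.le_div_iff_mul_le (by positivity)]
  obtain ⟨r, rfl⟩ := Nat.exists_eq_add_of_le hM
  have h1 : (M.powerset.filter fun A => A.card ≤ θ).card * t ^ M.card ≤
      t ^ θ * (t + 1) ^ M.card := by
    rw [add_comm t 1, ← sum_pow_mul_eq_add_pow 1 t M, mul_sum, ← smul_eq_mul, ← sum_const]
    refine (sum_le_sum fun A hA => ?_).trans (sum_le_sum_of_subset (filter_subset
      (fun A : Finset ℕ => A.card ≤ θ) _))
    rw [one_pow, one_mul, ← pow_add]
    have := (mem_filter.1 hA).2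
    exact Nat.pow_le_pow_right ht (by omega)
  rw [pow_add, pow_add, ← mul_assoc, ← mul_assoc]
  exact Nat.mul_le_mul h1 (Nat.pow_le_pow_left (Nat.le_succ t) r)

section correct
variable {n : ℕ} (G : SimpleGraph (Fin n))

/-- the data of a graph -/
noncomputable def grOf : Gr := (List.replicate n (), matOf n G)

theorem len_grOf : (grOf G).1.length = n := List.length_replicate

theorem mem_vs_grOf {v : ℕ} : v ∈ vs (grOf G) ↔ v < n := by rw [vs, len_grOf, mem_range]

theorem adj_grOf (u v : Fin n) : adj (grOf G) u v = true ↔ G.Adj u v := by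
  rw [adj, len_grOf, Bool.or_eq_true]
  exact (or_congr (matOf_getD G u.2 v.2) ((matOf_getD G v.2 u.2).trans (G.adj_comm _ _))).trans
    (or_self_iff)

theorem algo_correct {c t k : ℕ} (hc : 0 < c) (ht : 0 < t) {U : List Unit}
    (hU : 3 ^ ((2 * k + 1) * (2 * k + 1) + 2 * (2 * k + 1)) ≤ U.length) :
    (∃ S : Finset (Fin n), IsBisector G S ∧ S.card ≤ thr (tau c t k) k ∧
      algo c U (grOf G) k (thr (tau c t k) k) =
        true :: (List.finRange n).map fun i => decide (i ∈ S)) ∨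
    (algo c U (grOf G) k (thr (tau c t k) k) = [false] ∧
      ¬ ∃ S : Finset (Fin n), IsBisector G S ∧ S.card ≤ k) := by
  have hdis : ∀ Y, Disjoint (sd1 (grOf G) Y) (sd2 (grOf G) Y) := fun Y =>
    disjoint_left.2 fun x h1 h2 =>
      (mem_sdiff.1 (tk_subset _ _ h2)).2 (subset_cl (tk_subset _ _ h1))
  unfold algo
  cases hf : (look (tabs (grOf G) U (2 * k + 1) c (U.take (k + 1))) (vs (grOf G))).find? fun Y =>
      subB Y (vs (grOf G)) && Nat.ble (grOf G).1.length
        ((sd1 (grOf G) Y ∪ sd2 (grOf G) Y).card + thr (tau c t k) k) with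
  | some Y =>
    have h := List.find?_some hf
    simp only [Bool.and_eq_true, subB_iff, Nat.ble_eq, len_grOf] at h
    have s1 : sd1 (grOf G) Y ⊆ vs (grOf G) := (tk_subset _ _).trans h.1
    have s2 : sd2 (grOf G) Y ⊆ vs (grOf G) := (tk_subset _ _).trans sdiff_subset
    have l0 : ∀ m ∈ vs (grOf G) \ (sd1 (grOf G) Y ∪ sd2 (grOf G) Y), m < n :=
      fun m hm => (mem_vs_grOf G).1 (mem_sdiff.1 hm).1
    refine Or.inl ⟨attachFin _ l0, ⟨attachFin _ fun m hm => (mem_vs_grOf G).1 (s1 hm),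
      attachFin _ fun m hm => (mem_vs_grOf G).1 (s2 hm), ?_, ?_, ?_, ?_⟩, ?_, ?_⟩
    · exact disjoint_left.2 fun x h1 h2 =>
        disjoint_left.1 (hdis Y) ((mem_attachFin _).1 h1) ((mem_attachFin _).1 h2)
    · ext x
      simp only [mem_union, mem_attachFin, mem_sdiff, mem_univ, mem_vs_grOf, x.2]
      tauto
    · rw [card_attachFin, card_attachFin, sd1, sd2, card_tk, card_tk, abs_le]
      omega
    · intro u hu v hv ha
      exact (mem_sdiff.1 (tk_subset _ _ ((mem_attachFin _).1 hv))).2 (mem_cl_of_adj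
        (tk_subset _ _ ((mem_attachFin _).1 hu)) ((mem_vs_grOf G).2 v.2) ((adj_grOf G u v).2 ha))
    · have := card_sdiff_add_card_eq_card (union_subset s1 s2)
      rw [card_vs, len_grOf] at this
      rw [card_attachFin]
      omega
    · have e : srt (vs (grOf G)) = (List.finRange n).map (↑·) := by
        rw [List.map_coe_finRange_eq_range, vs, len_grOf]
        exact Finset.sort_range n
      simp only [Option.elim, e, List.map_map, List.cons.injEq, true_and]
      refine List.map_congr_left fun i _ => ?_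
      rw [Bool.eq_iff_iff]
      simp [mem_attachFin, mem_vs_grOf]
  | none =>
    refine Or.inr ⟨rfl, ?_⟩
    rintro ⟨S, ⟨V₁, V₂, h1, h2, h3, h4⟩, hS⟩
    have hsep : Sep (grOf G) (S.map Fin.valEmbedding) (V₁.map Fin.valEmbedding) := by
      refine ⟨fun x hx => ?_, (disjoint_map _).2 (disjoint_left.2 fun x hx k => ?_), fun u hu => ?_⟩
      · obtain ⟨i, -, rfl⟩ := mem_map.1 hx
        exact (mem_vs_grOf G).2 i.2
      · exact (mem_sdiff.1 (h2 ▸ mem_union_left V₂ hx)).2 k
      · obtain ⟨k1, k2, y, hy, ha⟩ := mem_nb.1 hu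
        obtain ⟨i, hi, rfl⟩ := mem_map.1 hy
        refine mem_map.2 ⟨⟨u, (mem_vs_grOf G).1 k1⟩, ?_, rfl⟩
        by_contra k3
        have k4 : (⟨u, (mem_vs_grOf G).1 k1⟩ : Fin n) ∈ V₁ ∪ V₂ :=
          h2 ▸ mem_sdiff.2 ⟨mem_univ _, k3⟩
        rcases mem_union.1 k4 with k5 | k5
        · exact k2 (mem_map.2 ⟨_, k5, rfl⟩)
        · exact h4 i hi _ k5 ((adj_grOf G i ⟨u, (mem_vs_grOf G).1 k1⟩).1 ha)
    have hSv : S.map Fin.valEmbedding ⊆ vs (grOf G) := fun x hx => by
      obtain ⟨i, -, rfl⟩ := mem_map.1 hx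
      exact (mem_vs_grOf G).2 i.2
    have hl : (U.take (k + 1)).length = k + 1 := by
      rw [List.length_take]
      refine min_eq_left (le_trans ?_ ((Nat.lt_pow_self (by omega)).le.trans hU))
      omega
    obtain ⟨h5, Y, hY, h6, h7⟩ := tabs_dm (g := grOf G) (c := c) (θ := (2 * k + 1) / c)
      (τ := tau c t k) (S := S.map Fin.valEmbedding) hU rfl (by rwa [card_map])
      (Nat.lt_mul_div_succ _ hc) (card_small_le ht) (k + 1) _ vs_mem_nodes
      (by rw [inter_eq_left.2 hSv, card_map]; omega) _ hsep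
    have h8 := List.find?_eq_none.1 hf Y (by rw [tabs, hl]; exact hY)
    have hYv := h5 Y hY
    rw [inter_eq_left.2 hSv, card_map] at h6 h7
    rw [inter_eq_left.2 hsep.1, card_map] at h6
    rw [inter_eq_left.2 (union_subset hsep.1 hSv), card_union_of_disjoint hsep.2.1, card_map,
      card_map, cost, nb_vs, sdiff_empty] at h7
    have c1 := card_sdiff_add_card_eq_card (cl_subset hYv)
    have c2 := card_sdiff_add_card_eq_card (subset_univ S)
    rw [card_vs, len_grOf] at c1
    rw [← h2, card_union_of_disjoint h1, card_univ, Fintype.card_fin] at c2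
    have c3 : (k + tau c t k + 2) * (2 * k + 1) * S.card ^ 2 ≤
        (k + tau c t k + 2) * (2 * k + 1) * (k * k) :=
      Nat.mul_le_mul_left _ (by rw [sq]; exact Nat.mul_le_mul hS hS)
    rw [abs_le] at h3
    refine h8 ?_
    simp only [Bool.and_eq_true, subB_iff, Nat.ble_eq, len_grOf]
    refine ⟨hYv, ?_⟩
    rw [card_union_of_disjoint (hdis Y), sd1, sd2, card_tk, card_tk, thr]
    omega

end correct

section pt
variable {α : Type} [Enc α]

@[fun_prop] theorem pt_tk {m : α → ℕ} {Y : α → Finset ℕ} (hm : PT m) (hY : PT Y) :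
    PT (fun a => tk (m a) (Y a)) := by
  unfold tk; fun_prop

@[fun_prop] theorem pt_sd1 {g : α → Gr} {Y : α → Finset ℕ} (hg : PT g) (hY : PT Y) :
    PT (fun a => sd1 (g a) (Y a)) := by
  unfold sd1; fun_prop

@[fun_prop] theorem pt_sd2 {g : α → Gr} {Y : α → Finset ℕ} (hg : PT g) (hY : PT Y) :
    PT (fun a => sd2 (g a) (Y a)) := by
  unfold sd2; fun_prop

@[fun_prop] theorem pt_algo {g : α → Gr} {U : α → List Unit} {k th : α → ℕ} (c : ℕ)
    (hU : PT U) (hg : PT g) (hk : PT k) (ht : PT th) :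
    PT (fun a => algo c (U a) (g a) (k a) (th a)) := by
  unfold algo; fun_prop

end pt

/-- the budget -/
def budX (n k : ℕ) : ℕ := 3 ^ ((2 * k + 1) * (2 * k + 1) + 2 * (2 * k + 1)) + n

theorem exists_machine (c t : ℕ) : ∃ (M : BTM) (T : Inst → ℕ), FB T ∧ ∀ I : Inst,
    M.Out (code I.n I.G I.k) (algo c (List.replicate (budX I.n I.k) ()) (grOf I.G) I.k
      (thr (tau c t I.k) I.k)) (T I) := by
  set s : Inst → ℕ := fun I => budX I.n I.k + (code I.n I.G I.k).length with hs
  have pq : Primrec fun k : ℕ => 2 * k + 1 :=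
    Primrec.nat_add.comp (Primrec.nat_mul.comp (Primrec.const 2) Primrec.id) (Primrec.const 1)
  have fs : FB s := by
    refine ((FB.par (primrec_pow (Primrec.const 3) (Primrec.nat_add.comp
      (Primrec.nat_mul.comp pq pq) (Primrec.nat_mul.comp (Primrec.const 2) pq))).to_comp).add
      FB.vert).add ?_
    simp only [length_code]
    exact (FB.vert.add (FB.const 1)).add
      (((FB.par Computable.id).add (FB.const 1)).add (FB.vert.mul FB.vert))
  have hlen : PB s fun I => (code I.n I.G I.k).length := PB.self.mono (fun I => by simp [hs])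
  have hx : PB s fun I => size (code I.n I.G I.k) :=
    (((PB.const 4).mul hlen).add (PB.const 1)).mono (fun I => size_bits_le _)
  have hn := pt_nOf
  have hr := pt_restOf
  have en : ∀ I : Inst, nOf (code I.n I.G I.k) = I.n := fun I => by rw [code_eq, nOf_eq]
  have ek : ∀ I : Inst, nOf (restOf (code I.n I.G I.k)) = I.k := fun I => by
    rw [code_eq, restOf_eq, nOf_eq]
  have em : ∀ I : Inst, restOf (restOf (code I.n I.G I.k)) = matOf I.n I.G := fun I => by
    rw [code_eq, restOf_eq, restOf_eq]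
  have hk : PS fun x : List Bool => nOf (restOf x) := hr.size_le.mono fun x =>
    (List.takeWhile_sublist _).length_le.trans (length_lt_size _).le
  have hq : PS fun x : List Bool => 2 * nOf (restOf x) + 1 :=
    ((PB.const 2).mul hk).add (PB.const 1)
  have hb : PT fun x : List Bool => budX (nOf x) (nOf (restOf x)) :=
    PT.add (PT.pow (PT.const 3) (by fun_prop) ((hq.mul hq).add ((PB.const 2).mul hq))) hn
  have hτ : PT fun x : List Bool => tau c t (nOf (restOf x)) :=
    PT.div (PT.mul (PT.pow (PT.const t) (by fun_prop) (hq.mono fun _ => Nat.div_le_self _ _))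
      (PT.pow (PT.const (t + 1)) (by fun_prop) hq)) (PT.pow (PT.const t) (by fun_prop) hq)
  have r1 : RT s (fun I => code I.n I.G I.k) (fun I => (budX I.n I.k, code I.n I.G I.k)) :=
    (RT.of_PT (f := fun x : List Bool => (budX (nOf x) (nOf (restOf x)), x))
      (by fun_prop) hx).of_eq (fun I => by simp only [en, ek])
  have r2 := r1.trans (RT.expand (PB.self.mono (fun I => by simp only [hs]; omega)) hx)
  have r3 := r2.trans ((RT.of_PT (f := fun p : List Unit × List Bool =>
      algo c p.1 (p.1.take (nOf p.2), restOf (restOf p.2)) (nOf (restOf p.2))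
        (thr (tau c t (nOf (restOf p.2))) (nOf (restOf p.2))))
      (by
        have := hτ.comp (PT.snd (PT.id (α := List Unit × List Bool)))
        unfold thr
        fun_prop) (r2.size_le hx)).of_eq
      (z := fun I => algo c (List.replicate (budX I.n I.k) ()) (grOf I.G) I.k
        (thr (tau c t I.k) I.k)) (fun I => by
          simp only [en, ek, em, grOf, List.take_replicate]
          rw [min_eq_left (by unfold budX; exact Nat.le_add_left _ _)]))
  obtain ⟨M, T, hT, -, hM⟩ := r3.exists_btm hlen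
  exact ⟨M, T, fs.of_PB hT, hM⟩

theorem thr_le {δ : ℝ} (hδ : 0 < δ) : ∃ (c t : ℕ) (C : ℝ), 0 < c ∧ 0 < t ∧
    ∀ k : ℕ, (thr (tau c t k) k : ℝ) ≤ (1 + C * 2 ^ (δ * k)) * k := by
  set b : ℝ := 2 ^ (δ / 7) with hb
  have hb1 : 1 < b := Real.one_lt_rpow (by norm_num) (by positivity)
  obtain ⟨t, ht⟩ := exists_nat_gt (1 / (b - 1))
  have hb0 : 0 < b - 1 := by linarith
  have ht0 : (0 : ℝ) < t := lt_trans (by positivity) ht
  rw [div_lt_iff₀ hb0] at ht
  obtain ⟨c, hc⟩ := pow_unbounded_of_one_lt (t : ℝ) hb1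
  have hc' : (t : ℝ) ≤ b ^ (c + 1) := hc.le.trans (pow_le_pow_right₀ hb1.le (Nat.le_succ c))
  refine ⟨c + 1, t, 16 * (t + 1) ^ 3 * b ^ 2, Nat.succ_pos c, by exact_mod_cast ht0, fun k => ?_⟩
  have e : (2 : ℝ) ^ (δ * k) = (b ^ k) ^ 7 := by
    rw [hb, ← pow_mul, ← Real.rpow_natCast, ← Real.rpow_mul (by norm_num)]
    congr 1
    push_cast
    ring
  have hy : 1 ≤ b ^ k := one_le_pow₀ hb1.le
  have hk0 : (0 : ℝ) ≤ k := Nat.cast_nonneg k
  have h1 : (k : ℝ) + 1 ≤ (t + 1) * b ^ k := by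
    have := one_add_mul_le_pow (a := b - 1) (by linarith) k
    rw [add_sub_cancel] at this
    nlinarith
  have h2 : (tau (c + 1) t k : ℝ) ≤ b ^ 2 * (b ^ k) ^ 4 := by
    refine Nat.cast_div_le.trans ?_
    push_cast
    rw [div_le_iff₀ (by positivity)]
    have a1 : (t : ℝ) ^ ((2 * k + 1) / (c + 1)) ≤ b ^ (2 * k + 1) :=
      (pow_le_pow_left₀ ht0.le hc' _).trans (by
        rw [← pow_mul]
        exact pow_le_pow_right₀ hb1.le (Nat.mul_div_le _ _))
    have a2 : ((t : ℝ) + 1) ^ (2 * k + 1) ≤ (b * t) ^ (2 * k + 1) :=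
      pow_le_pow_left₀ (by positivity) (by nlinarith) _
    refine (mul_le_mul a1 a2 (by positivity) (by positivity)).trans_eq ?_
    ring
  have h3 : 1 ≤ b ^ 2 * (b ^ k) ^ 4 :=
    one_le_mul_of_one_le_of_one_le (one_le_pow₀ hb1.le) (one_le_pow₀ hy)
  have h4 : (k : ℝ) + tau (c + 1) t k + 2 ≤ 4 * (k + 1) * (b ^ 2 * (b ^ k) ^ 4) := by
    nlinarith
  have h5 : ((k : ℝ) + 1) ^ 3 ≤ ((t + 1) * b ^ k) ^ 3 := pow_le_pow_left₀ (by positivity) h1 3
  have h6 : 2 * (((k : ℝ) + tau (c + 1) t k + 2) * (2 * k + 1) * k) ≤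
      16 * (t + 1) ^ 3 * b ^ 2 * (b ^ k) ^ 7 :=
    calc 2 * (((k : ℝ) + tau (c + 1) t k + 2) * (2 * k + 1) * k)
        ≤ 2 * (4 * (k + 1) * (b ^ 2 * (b ^ k) ^ 4) * (2 * (k + 1)) * (k + 1)) := by
          gcongr <;> linarith
      _ = 16 * (k + 1) ^ 3 * (b ^ 2 * (b ^ k) ^ 4) := by ring
      _ ≤ 16 * ((t + 1) * b ^ k) ^ 3 * (b ^ 2 * (b ^ k) ^ 4) := by gcongr
      _ = _ := by ring
  have h7 := mul_le_mul_of_nonneg_right h6 hk0
  rw [e, thr]
  push_cast
  nlinarith

theorem mainX (δ : ℝ) (hδ : 0 < δ) :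
    ∃ C : ℝ, SolvableFPT [] fun n G k => ApproxAnswer (C * 2 ^ (δ * k)) n G k := by
  obtain ⟨c, t, C, hc, ht, h⟩ := thr_le hδ
  obtain ⟨M, T, ⟨f, d, hf, hT⟩, hM⟩ := exists_machine c t
  refine ⟨C, M.tm, M.e₀, M.e₁, f, d, M.fin, hf, fun n G k => ⟨_, ?_,
    (hM ⟨n, G, k⟩).mono (hT ⟨n, G, k⟩)⟩⟩
  rcases algo_correct G hc ht (k := k) (U := List.replicate (budX n k) ())
    (by rw [List.length_replicate]; exact Nat.le_add_right _ _) with ⟨S, h1, h2, h3⟩ | h1
  · exact Or.inl ⟨S, h1, le_trans (by exact_mod_cast h2) (h k), h3⟩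
  · exact Or.inr h1

end Pool.Agent.P.MP_8c536d_lc.XA
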