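import Pool.Agent.P.MP_8c536d_lc.Main

/-!
Finite sets of numbers as data of polynomial-time programs.
-/

namespace Pool.Agent.P.MP_8c536d_lc.XA

open Pool.Agent.Lib.Helper47 Pool.Agent.Lib.Helper47.Enc

/-- the sorted list of the elements -/
def srt (s : Finset ℕ) : List ℕ := s.sort (· ≤ ·)

@[simp] theorem mem_srt {s : Finset ℕ} {x : ℕ} : x ∈ srt s ↔ x ∈ s := Finset.mem_sort _
@[simp] theorem length_srt (s : Finset ℕ) : (srt s).length = s.card := Finset.length_sort _
@[simp] theorem toFinset_srt (s : Finset ℕ) : (srt s).toFinset = s := Finset.sort_toFinset _ _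
theorem nodup_srt (s : Finset ℕ) : (srt s).Nodup := Finset.sort_nodup _ _
theorem pairwise_srt (s : Finset ℕ) : (srt s).Pairwise (· < ·) :=
  (Finset.sortedLT_sort s).pairwise

theorem srt_eq {s : Finset ℕ} {l : List ℕ} (h : l.Pairwise (· < ·)) (hm : ∀ x, x ∈ s ↔ x ∈ l) :
    srt s = l := (pairwise_srt s).eq_of_mem_iff h (fun x => mem_srt.trans (hm x))

instance : Enc (Finset ℕ) := ⟨fun s => toT (srt s), fun a b h => by
  rw [← toFinset_srt a, inj h, toFinset_srt]⟩

theorem size_fs (s : Finset ℕ) : size s = size (srt s) := rfl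

/-- filter by a Boolean test -/
def fil (s : Finset ℕ) (p : ℕ → Bool) : Finset ℕ := s.filter fun x => p x = true
/-- membership test -/
def memB (x : ℕ) (s : Finset ℕ) : Bool := decide (x ∈ s)
/-- inclusion test -/
def subB (s t : Finset ℕ) : Bool := decide (s ⊆ t)

@[simp] theorem mem_fil {s : Finset ℕ} {p : ℕ → Bool} {x : ℕ} :
    x ∈ fil s p ↔ x ∈ s ∧ p x = true := Finset.mem_filter
@[simp] theorem memB_iff {x : ℕ} {s : Finset ℕ} : memB x s = true ↔ x ∈ s := decide_eq_true_iff
@[simp] theorem memB_false {x : ℕ} {s : Finset ℕ} : memB x s = false ↔ x ∉ s :=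
  decide_eq_false_iff_not
@[simp] theorem subB_iff {s t : Finset ℕ} : subB s t = true ↔ s ⊆ t := decide_eq_true_iff

theorem fil_subset (s : Finset ℕ) (p : ℕ → Bool) : fil s p ⊆ s := Finset.filter_subset _ _

theorem srt_fil (s : Finset ℕ) (p : ℕ → Bool) : srt (fil s p) = (srt s).filter p :=
  srt_eq ((pairwise_srt s).filter p) (fun x => by simp)

theorem size_mono {s t : Finset ℕ} (h : s ⊆ t) : size s ≤ size t := by
  have e : s = fil t (fun x => memB x s) := by
    ext x
    simp only [mem_fil, memB_iff]
    exact ⟨fun hx => ⟨h hx, hx⟩, fun hx => hx.2⟩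
  rw [e, size_fs, size_fs, srt_fil]
  exact size_sublist List.filter_sublist

theorem card_lt_size (s : Finset ℕ) : s.card < size s := by
  rw [← length_srt]; exact length_lt_size _

theorem srt_insert (x : ℕ) (s : Finset ℕ) : srt (insert x s) =
    (srt s).filter (fun y => Nat.blt y x) ++ x :: (srt s).filter (fun y => Nat.blt x y) := by
  refine srt_eq ?_ (fun y => ?_)
  · rw [List.pairwise_append, List.pairwise_cons]
    refine ⟨(pairwise_srt s).filter _, ⟨fun y hy => ?_, (pairwise_srt s).filter _⟩, ?_⟩
    · simpa using (List.mem_filter.1 hy).2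
    · intro a ha b hb
      have h1 : a < x := by simpa using (List.mem_filter.1 ha).2
      rcases List.mem_cons.1 hb with rfl | hb
      · exact h1
      · have h2 : x < b := by simpa using (List.mem_filter.1 hb).2
        omega
  · simp only [Finset.mem_insert, List.mem_append, List.mem_filter, mem_srt, Nat.blt_eq,
      List.mem_cons]
    rcases lt_trichotomy y x with h | h | h
    · simp [h, h.ne, h.not_gt]
    · simp [h]
    · simp [h, h.ne', h.not_gt]

theorem size_filter_add {β : Type} [Enc β] (l : List β) (p q : β → Bool)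
    (h : ∀ y, ¬ (p y = true ∧ q y = true)) :
    size (l.filter p) + size (l.filter q) ≤ size l + 1 := by
  induction l with
  | nil => simp
  | cons y l ih =>
    have := h y
    have := size_pos y
    cases hp : p y <;> cases hq : q y <;> simp_all <;> omega

theorem size_insert (x : ℕ) (s : Finset ℕ) : size (insert x s) ≤ size s + size x + 1 := by
  have h1 := size_append ((srt s).filter (fun y => Nat.blt y x))
    (x :: (srt s).filter (fun y => Nat.blt x y))
  have h2 := size_filter_add (srt s) (fun y => Nat.blt y x) (fun y => Nat.blt x y)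
    (fun y => by simp only [Nat.blt_eq]; omega)
  rw [size_fs, size_fs, srt_insert]
  simp only [size_cons] at h1
  omega

theorem foldl_insert (l : List ℕ) (s : Finset ℕ) :
    l.foldl (fun t x => insert x t) s = l.toFinset ∪ s := by
  induction l generalizing s with
  | nil => simp
  | cons x l ih => rw [List.foldl_cons, ih]; ext y; simp

theorem foldr_dedup {β : Type} [DecidableEq β] (l : List β) :
    l.foldr (fun x t => bif t.contains x then t else x :: t) [] = l.dedup := by
  induction l with
  | nil => rfl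
  | cons x l ih =>
    rw [List.foldr_cons, ih]
    by_cases h : x ∈ l.dedup
    · rw [List.dedup_cons_of_mem' h]; simp [List.mem_dedup.1 h]
    · rw [List.dedup_cons_of_notMem' h]; simp [mt List.mem_dedup.2 h]

section pt
variable {α β : Type} [Enc α] [Enc β]

@[fun_prop] theorem pt_srt {s : α → Finset ℕ} (hs : PT s) : PT (fun a => srt (s a)) :=
  hs.cast (fun _ => rfl)

theorem pt_of_srt {s : α → Finset ℕ} (hs : PT (fun a => srt (s a))) : PT s :=
  hs.cast (fun _ => rfl)

@[fun_prop] theorem pt_fil {s : α → Finset ℕ} {p : α → ℕ → Bool} (hs : PT s)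
    (hp : PT (fun x : α × ℕ => p x.1 x.2)) : PT (fun a => fil (s a) (p a)) :=
  pt_of_srt ((PT.filter hp (pt_srt hs)).of_eq (fun _ => (srt_fil _ _).symm))

@[fun_prop] theorem pt_memB {x : α → ℕ} {s : α → Finset ℕ} (hx : PT x) (hs : PT s) :
    PT (fun a => memB (x a) (s a)) :=
  (PT.contains (pt_srt hs) hx).of_eq (fun a => by
    rw [Bool.eq_iff_iff]; simp)

@[fun_prop] theorem pt_subB {s t : α → Finset ℕ} (hs : PT s) (ht : PT t) :
    PT (fun a => subB (s a) (t a)) :=
  (PT.all (g := fun a x => memB x (t a)) (by fun_prop) (pt_srt hs)).of_eq (fun a => by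
    rw [Bool.eq_iff_iff]; simp [Finset.subset_iff])

@[fun_prop] theorem pt_card {s : α → Finset ℕ} (hs : PT s) : PT (fun a => (s a).card) :=
  (PT.length (pt_srt hs)).of_eq (fun _ => length_srt _)

@[fun_prop] theorem pt_insert {x : α → ℕ} {s : α → Finset ℕ} (hx : PT x) (hs : PT s) :
    PT (fun a => insert (x a) (s a)) := by
  refine pt_of_srt (PT.of_eq ?_ (fun _ => (srt_insert _ _).symm))
  fun_prop

@[fun_prop] theorem pt_singleton {x : α → ℕ} (hx : PT x) : PT (fun a => ({x a} : Finset ℕ)) :=
  (pt_insert hx (PT.const ∅)).of_eq (fun _ => by simp)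

@[fun_prop] theorem pt_toFinset {l : α → List ℕ} (hl : PT l) : PT (fun a => (l a).toFinset) := by
  refine (PT.foldl_add (f := fun _ (t : Finset ℕ) x => insert x t) (s := fun _ => ∅)
    (by fun_prop) hl (PT.const _) (fun a => size (l a) + 1) (hl.size_le.add (PB.const 1))
    (fun a t x hx => ?_)).of_eq (fun a => by rw [foldl_insert]; simp)
  have := size_insert x t
  have := size_lt_of_mem hx
  omega

@[fun_prop] theorem pt_union {s t : α → Finset ℕ} (hs : PT s) (ht : PT t) :
    PT (fun a => s a ∪ t a) :=
  (pt_toFinset (PT.append (pt_srt hs) (pt_srt ht))).of_eq (fun a => by simp)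

@[fun_prop] theorem pt_sdiff {s t : α → Finset ℕ} (hs : PT s) (ht : PT t) :
    PT (fun a => s a \ t a) :=
  (pt_fil (p := fun a x => !memB x (t a)) hs (by fun_prop)).of_eq (fun a => by ext; simp)

@[fun_prop] theorem pt_inter {s t : α → Finset ℕ} (hs : PT s) (ht : PT t) :
    PT (fun a => s a ∩ t a) :=
  (pt_fil (p := fun a x => memB x (t a)) hs (by fun_prop)).of_eq (fun a => by ext; simp)

@[fun_prop] theorem pt_dedup [DecidableEq β] {l : α → List β} (hl : PT l) :
    PT (fun a => (l a).dedup) := by
  refine (PT.foldr (f := fun _ x (t : List β) => bif t.contains x then t else x :: t)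
    (s := fun _ => []) (by fun_prop) hl (PT.const _) (fun a => size (l a)) hl.size_le
    (fun a u hu => ?_)).of_eq (fun a => foldr_dedup _)
  rw [foldr_dedup]
  exact size_sublist ((List.dedup_sublist u).trans hu.sublist)

end pt

/-- an iteration with a decreasing measure reaches its goal -/
theorem iter_fix {σ : Type} (f : σ → σ) (I D : σ → Prop) (μ : σ → ℕ)
    (hI : ∀ s, I s → I (f s)) (hD : ∀ s, I s → D s → f s = s)
    (hμ : ∀ s, I s → D s ∨ μ (f s) < μ s) :
    ∀ (N : ℕ) (s : σ), I s → μ s ≤ N → I (f^[N] s) ∧ D (f^[N] s) := by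
  intro N
  induction N with
  | zero =>
    intro s hs h
    exact ⟨hs, (hμ s hs).resolve_right (by omega)⟩
  | succ N ih =>
    intro s hs h
    rcases hμ s hs with hd | hl
    · rw [Function.iterate_fixed (hD s hs hd)]
      exact ⟨hs, hd⟩
    · rw [Function.iterate_succ_apply]
      exact ih _ (hI s hs) (by omega)

theorem iter_inv {σ : Type} (f : σ → σ) (I : σ → Prop) (hI : ∀ s, I s → I (f s)) (N : ℕ)
    (s : σ) (hs : I s) : I (f^[N] s) := by
  induction N with
  | zero => exact hs
  | succ N ih => rw [Function.iterate_succ_apply']; exact hI _ ih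

end Pool.Agent.P.MP_8c536d_lc.XA
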