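import Pool.Agent.P.MP_8c536d_lc.XA.Fs

/-!
Graphs as data: neighbourhoods, reachability and components.
-/

namespace Pool.Agent.P.MP_8c536d_lc.XA

open Finset Pool.Agent.Lib.Helper47

/-- a graph: the number of vertices in unary and the adjacency matrix -/
abbrev Gr : Type := List Unit × List Bool

/-- the vertices -/
def vs (g : Gr) : Finset ℕ := range g.1.length

/-- adjacency -/
def adj (g : Gr) (u v : ℕ) : Bool :=
  g.2.getD (u * g.1.length + v) false || g.2.getD (v * g.1.length + u) false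

/-- the neighbours outside -/
def nb (g : Gr) (X : Finset ℕ) : Finset ℕ :=
  fil (vs g) fun v => !memB v X && (srt X).any fun u => adj g u v

/-- the set with its neighbours -/
def cl (g : Gr) (X : Finset ℕ) : Finset ℕ := X ∪ nb g X

/-- the vertices reachable from `A` through `P` -/
def reach (g : Gr) (P A : Finset ℕ) : Finset ℕ := (fun R => R ∪ nb g R ∩ P)^[g.1.length] A

/-- the component of `v` in `P` -/
def comp (g : Gr) (P : Finset ℕ) (v : ℕ) : Finset ℕ := reach g P {v}

/-- the components of `P` -/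
def comps (g : Gr) (P : Finset ℕ) : List (Finset ℕ) := ((srt P).map (comp g P)).dedup

variable {g : Gr} {P A R X Y C D Q : Finset ℕ} {u v w x : ℕ}

theorem adj_comm (g : Gr) (u v : ℕ) : adj g u v = adj g v u := Bool.or_comm _ _

theorem adj_symm (h : adj g u v = true) : adj g v u = true := adj_comm g u v ▸ h

theorem card_vs (g : Gr) : (vs g).card = g.1.length := card_range _

theorem mem_nb : v ∈ nb g X ↔ v ∈ vs g ∧ v ∉ X ∧ ∃ u ∈ X, adj g u v = true := by
  simp [nb]

theorem nb_subset : nb g X ⊆ vs g := fil_subset _ _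

theorem mem_cl : v ∈ cl g X ↔ v ∈ X ∨ v ∈ vs g ∧ ∃ u ∈ X, adj g u v = true := by
  rw [cl, mem_union, mem_nb]
  by_cases h : v ∈ X <;> simp [h]

theorem subset_cl : X ⊆ cl g X := subset_union_left

theorem mem_cl_of_adj (hu : u ∈ X) (hv : v ∈ vs g) (h : adj g u v = true) : v ∈ cl g X :=
  mem_cl.2 (Or.inr ⟨hv, u, hu, h⟩)

theorem cl_subset (h : X ⊆ vs g) : cl g X ⊆ vs g := union_subset h nb_subset

theorem cl_union (g : Gr) (X Y : Finset ℕ) : cl g (X ∪ Y) = cl g X ∪ cl g Y := by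
  ext v
  simp only [mem_cl, mem_union]
  constructor
  · rintro ((h | h) | ⟨h, u, hu | hu, ha⟩)
    · exact Or.inl (Or.inl h)
    · exact Or.inr (Or.inl h)
    · exact Or.inl (Or.inr ⟨h, u, hu, ha⟩)
    · exact Or.inr (Or.inr ⟨h, u, hu, ha⟩)
  · rintro ((h | ⟨h, u, hu, ha⟩) | (h | ⟨h, u, hu, ha⟩))
    · exact Or.inl (Or.inl h)
    · exact Or.inr ⟨h, u, Or.inl hu, ha⟩
    · exact Or.inl (Or.inr h)
    · exact Or.inr ⟨h, u, Or.inr hu, ha⟩

@[simp] theorem nb_empty (g : Gr) : nb g ∅ = ∅ := by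
  ext v; simp [mem_nb]

@[simp] theorem cl_empty (g : Gr) : cl g ∅ = ∅ := by simp [cl]

@[simp] theorem nb_vs (g : Gr) : nb g (vs g) = ∅ := by
  ext v; simp only [mem_nb]; simp; tauto

theorem subset_reach : A ⊆ reach g P A :=
  iter_inv _ (fun R => A ⊆ R) (fun _ h => h.trans subset_union_left) _ _ Subset.rfl

theorem reach_ind (Q : ℕ → Prop) (h0 : ∀ a ∈ A, Q a)
    (h1 : ∀ u v, Q u → adj g u v = true → v ∈ P → v ∈ vs g → Q v) : ∀ x ∈ reach g P A, Q x := by
  refine iter_inv _ (fun R : Finset ℕ => ∀ x ∈ R, Q x) (fun R h x hx => ?_) _ _ h0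
  rcases mem_union.1 hx with hx | hx
  · exact h x hx
  · obtain ⟨hv, -, u, hu, ha⟩ := mem_nb.1 (mem_inter.1 hx).1
    exact h1 u x (h u hu) ha (mem_inter.1 hx).2 hv

theorem reach_subset : reach g P A ⊆ A ∪ P :=
  reach_ind (fun x => x ∈ A ∪ P) (fun _ h => mem_union_left _ h)
    (fun _ _ _ _ h _ => mem_union_right _ h)

theorem reach_subset_vs : reach g P A ⊆ A ∪ vs g :=
  reach_ind (fun x => x ∈ A ∪ vs g) (fun _ h => mem_union_left _ h)
    (fun _ _ _ _ _ h => mem_union_right _ h)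

theorem reach_closed (hu : u ∈ reach g P A) (h : adj g u v = true) (hP : v ∈ P)
    (hv : v ∈ vs g) : v ∈ reach g P A := by
  have key := (iter_fix (fun R => R ∪ nb g R ∩ P) (fun _ => True) (fun R => nb g R ∩ P = ∅)
    (fun R => (vs g \ R).card) (fun _ _ => trivial) (fun R _ h => by simp [h])
    (fun R _ => by
      rcases (nb g R ∩ P).eq_empty_or_nonempty with h | ⟨x, hx⟩
      · exact Or.inl h
      · refine Or.inr (card_lt_card ⟨sdiff_subset_sdiff Subset.rfl subset_union_left,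
          fun hs => ?_⟩)
        have h1 := mem_nb.1 (mem_inter.1 hx).1
        exact (mem_sdiff.1 (hs (mem_sdiff.2 ⟨h1.1, h1.2.1⟩))).2 (mem_union_right _ hx))
    g.1.length A trivial ((card_le_card sdiff_subset).trans (card_vs g).le)).2
  by_contra hn
  have : v ∈ nb g (reach g P A) ∩ P := mem_inter.2 ⟨mem_nb.2 ⟨hv, hn, u, hu, h⟩, hP⟩
  rw [show nb g (reach g P A) ∩ P = ∅ from key] at this
  simp at this

theorem notMem_of_mem_nb_reach (h : v ∈ nb g (reach g P A)) : v ∉ P := fun hP => by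
  obtain ⟨hv, hn, u, hu, ha⟩ := mem_nb.1 h
  exact hn (reach_closed hu ha hP hv)

theorem mem_comp_self : v ∈ comp g P v := subset_reach (mem_singleton_self v)

theorem comp_subset (hv : v ∈ P) : comp g P v ⊆ P :=
  reach_subset.trans (union_subset (singleton_subset_iff.2 hv) Subset.rfl)

theorem comp_trans (hu : u ∈ comp g P v) : comp g P u ⊆ comp g P v :=
  reach_ind (fun x => x ∈ comp g P v) (fun a ha => by rwa [mem_singleton.1 ha])
    (fun _ _ h1 h2 h3 h4 => reach_closed h1 h2 h3 h4)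

theorem comp_symm (hP : P ⊆ vs g) (hv : v ∈ P) (hu : u ∈ comp g P v) : v ∈ comp g P u :=
  (reach_ind (fun x => x ∈ P ∧ v ∈ comp g P x)
    (fun a ha => by rw [mem_singleton.1 ha]; exact ⟨hv, mem_comp_self⟩)
    (fun x y h1 h2 h3 _ => ⟨h3, comp_trans
      (reach_closed mem_comp_self (adj_symm h2) h1.1 (hP h1.1)) h1.2⟩) u hu).2

theorem comp_eq (hP : P ⊆ vs g) (hv : v ∈ P) (hu : u ∈ comp g P v) : comp g P u = comp g P v :=
  Subset.antisymm (comp_trans hu) (comp_trans (comp_symm hP hv hu))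

theorem mem_comps : C ∈ comps g P ↔ ∃ v ∈ P, comp g P v = C := by
  simp [comps]

theorem comp_mem_comps (hv : v ∈ P) : comp g P v ∈ comps g P := mem_comps.2 ⟨v, hv, rfl⟩

theorem comps_subset (h : C ∈ comps g P) : C ⊆ P := by
  obtain ⟨v, hv, rfl⟩ := mem_comps.1 h
  exact comp_subset hv

theorem comps_nonempty (h : C ∈ comps g P) : C.Nonempty := by
  obtain ⟨v, -, rfl⟩ := mem_comps.1 h
  exact ⟨v, mem_comp_self⟩

theorem comps_eq_comp (hP : P ⊆ vs g) (h : C ∈ comps g P) (hx : x ∈ C) : comp g P x = C := by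
  obtain ⟨v, hv, rfl⟩ := mem_comps.1 h
  exact comp_eq hP hv hx

theorem comps_nb (h : C ∈ comps g P) (hv : v ∈ nb g C) : v ∉ P := by
  obtain ⟨u, -, rfl⟩ := mem_comps.1 h
  exact notMem_of_mem_nb_reach hv

theorem nodup_comps : (comps g P).Nodup := List.nodup_dedup _

theorem comps_disjoint (hP : P ⊆ vs g) (hC : C ∈ comps g P) (hD : D ∈ comps g P) (h : C ≠ D) :
    Disjoint C D :=
  disjoint_left.2 fun _ h1 h2 => h ((comps_eq_comp hP hC h1).symm.trans (comps_eq_comp hP hD h2))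

theorem pairwise_comps (hP : P ⊆ vs g) : (comps g P).Pairwise Disjoint :=
  (List.Pairwise.and_mem.1 nodup_comps).imp fun h => comps_disjoint hP h.1 h.2.1 h.2.2

/-- a component that avoids the neighbours of `X` lies in `X` or avoids `X` -/
theorem comps_side (hP : P ⊆ vs g) (hC : C ∈ comps g P) (hS : Disjoint C (nb g X))
    (hx : x ∈ C) (hX : x ∈ X) : C ⊆ X := by
  have e := comps_eq_comp hP hC hx
  intro y hy
  rw [← e] at hy
  refine (reach_ind (fun y => y ∈ X ∧ y ∈ comp g P x)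
    (fun a ha => by rw [mem_singleton.1 ha]; exact ⟨hX, mem_comp_self⟩)
    (fun u v h1 h2 h3 h4 => ?_) y hy).1
  have h5 : v ∈ comp g P x := reach_closed h1.2 h2 h3 h4
  refine ⟨?_, h5⟩
  by_contra hn
  exact disjoint_left.1 hS (e ▸ h5) (mem_nb.2 ⟨h4, hn, u, h1.1, h2⟩)

section pt
variable {α : Type} [Enc α]

@[fun_prop] theorem pt_vs {g : α → Gr} (hg : PT g) : PT (fun a => vs (g a)) :=
  pt_of_srt ((PT.rangeLength (PT.fst hg)).of_eq (fun _ => (Finset.sort_range _).symm))

@[fun_prop] theorem pt_adj {g : α → Gr} {u v : α → ℕ} (hg : PT g) (hu : PT u) (hv : PT v) :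
    PT (fun a => adj (g a) (u a) (v a)) := by
  unfold adj; fun_prop

@[fun_prop] theorem pt_nb {g : α → Gr} {X : α → Finset ℕ} (hg : PT g) (hX : PT X) :
    PT (fun a => nb (g a) (X a)) := by
  unfold nb; fun_prop

@[fun_prop] theorem pt_cl {g : α → Gr} {X : α → Finset ℕ} (hg : PT g) (hX : PT X) :
    PT (fun a => cl (g a) (X a)) := by
  unfold cl; fun_prop

@[fun_prop] theorem pt_reach {g : α → Gr} {P A : α → Finset ℕ} (hg : PT g) (hP : PT P)
    (hA : PT A) : PT (fun a => reach (g a) (P a) (A a)) :=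
  PT.iterate_inv (f := fun a R => R ∪ nb (g a) R ∩ P a) (by fun_prop) (PT.fst hg) hA
    (fun a R => R ⊆ A a ∪ P a) (fun _ => subset_union_left)
    (fun _ _ h => union_subset h (inter_subset_right.trans subset_union_right))
    (fun a => size (A a ∪ P a)) (pt_union hA hP).size_le (fun _ _ h => size_mono h)

@[fun_prop] theorem pt_comp {g : α → Gr} {P : α → Finset ℕ} {v : α → ℕ} (hg : PT g) (hP : PT P)
    (hv : PT v) : PT (fun a => comp (g a) (P a) (v a)) := by
  unfold comp; fun_prop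

@[fun_prop] theorem pt_comps {g : α → Gr} {P : α → Finset ℕ} (hg : PT g) (hP : PT P) :
    PT (fun a => comps (g a) (P a)) := by
  unfold comps; fun_prop

end pt

end Pool.Agent.P.MP_8c536d_lc.XA
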