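import Pool.Agent.P.MP_8c536d_lc.XA.Bag

/-!
The nodes of the decomposition and tables of vertex sets, one for each size.
-/

namespace Pool.Agent.P.MP_8c536d_lc.XA

open Finset Pool.Agent.Lib.Helper47

/-- the children of a node -/
def ch (g : Gr) (U : List Unit) (q : ℕ) (I : Finset ℕ) : List (Finset ℕ) :=
  comps g (vs g \ bag g U q I)

/-- a level of the decomposition -/
def lev (g : Gr) (U : List Unit) (q : ℕ) (l : List Unit) : List (Finset ℕ) :=
  (fun L : List (Finset ℕ) => L.flatMap (ch g U q))^[l.length] [vs g]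

/-- all nodes -/
def nodes (g : Gr) (U : List Unit) (q : ℕ) : List (Finset ℕ) :=
  ∅ :: (List.range (() :: g.1).length).flatMap fun i => lev g U q (g.1.take i)

/-- the number of vertices used up by `X` outside `Fr` -/
def cost (g : Gr) (Fr X : Finset ℕ) : ℕ := (cl g X \ Fr).card

/-- a cheapest set -/
def best (g : Gr) (Fr : Finset ℕ) (L : List (Finset ℕ)) : Option (Finset ℕ) :=
  L.find? fun X => L.all fun Y => Nat.ble (cost g Fr X) (cost g Fr Y)

/-- one cheapest set for each size -/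
def prune (g : Gr) (Fr : Finset ℕ) (L : List (Finset ℕ)) : List (Finset ℕ) :=
  (List.range (() :: g.1).length).filterMap fun s =>
    best g Fr (L.filter fun X => subB X (vs g) && X.card == s)

/-- unions of one set from each table -/
def prod (g : Gr) (Fr : Finset ℕ) (ts : List (List (Finset ℕ))) : List (Finset ℕ) :=
  ts.foldr (fun T a => prune g Fr (T.flatMap fun Y => a.map fun X => Y ∪ X)) [∅]

/-- union of a list -/
def un (l : List (Finset ℕ)) : Finset ℕ := l.foldr (· ∪ ·) ∅

/-- the table `T` lives on `ρ` and holds a set that is nearly as good as `X` -/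
def Dm (g : Gr) (Fr X S : Finset ℕ) (lam : ℕ) (T : List (Finset ℕ)) (ρ : Finset ℕ) (p : ℕ) :
    Prop :=
  (∀ Y ∈ T, Y ⊆ ρ) ∧ ∃ Y ∈ T, (X ∩ ρ).card ≤ Y.card + (lam * (S ∩ ρ).card + p) ∧
    cost g Fr Y ≤ ((X ∪ S) ∩ ρ).card + (lam * (S ∩ ρ).card + p)

variable {g : Gr} {U : List Unit} {q lam p p' : ℕ} {I C X Y S Fr Fr' ρ ρ' : Finset ℕ}
  {L T : List (Finset ℕ)} {x : ℕ}

theorem mem_un : x ∈ un L ↔ ∃ C ∈ L, x ∈ C := by
  induction L with
  | nil => simp [un]
  | cons C L ih => rw [show un (C :: L) = C ∪ un L from rfl, mem_union, ih]; simp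

theorem ch_subset (h : C ∈ ch g U q I) : C ⊆ I := fun x hx => by
  obtain ⟨h1, h2⟩ := mem_sdiff.1 (comps_subset h hx)
  by_contra hn
  exact h2 (bag_spec.1.1 (mem_tg.2 ⟨h1, fun k => (hn k).elim⟩))

theorem ch_vs (h : C ∈ ch g U q I) : C ⊆ vs g := (comps_subset h).trans sdiff_subset

theorem ch_nb (h : C ∈ ch g U q I) : (nb g C).card ≤ q := bag_spec.1.2.2 C h

theorem ch_card (hI : I ⊆ vs g) (h : C ∈ ch g U q I) : C.card < I.card := by
  have hne : I.Nonempty := (comps_nonempty h).mono (ch_subset h)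
  refine card_lt_card ⟨ch_subset h, fun hs => ?_⟩
  exact (mem_sdiff.1 (comps_subset h (hs (min'_mem I hne)))).2
    (bag_spec.1.1 (mem_tg.2 ⟨hI (min'_mem I hne), fun _ u hu => min'_le I u hu⟩))

theorem sum_card_le (hd : L.Pairwise Disjoint) (h : ∀ C ∈ L, C ⊆ I) :
    (L.map card).sum ≤ I.card := by
  induction L generalizing I with
  | nil => simp
  | cons C L ih =>
    obtain ⟨h1, h2⟩ := List.pairwise_cons.1 hd
    have h3 := ih (I := I \ C) h2 fun D hD =>
      subset_sdiff.2 ⟨h D (List.mem_cons_of_mem _ hD), (h1 D hD).symm⟩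
    have h4 := card_sdiff_add_card_eq_card (h C List.mem_cons_self)
    simp only [List.map_cons, List.sum_cons]
    omega

theorem sum_card_flatMap (L : List (Finset ℕ)) :
    ((L.flatMap (ch g U q)).map card).sum ≤ (L.map card).sum := by
  induction L with
  | nil => simp
  | cons C L ih =>
    have := sum_card_le (pairwise_comps (P := vs g \ bag g U q C) sdiff_subset)
      fun D hD => ch_subset hD
    simp only [List.flatMap_cons, List.map_append, List.sum_append, List.map_cons, List.sum_cons]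
    exact Nat.add_le_add this ih

theorem length_le_sum_card (h : ∀ C ∈ L, C.Nonempty) : L.length ≤ (L.map card).sum := by
  induction L with
  | nil => simp
  | cons C L ih =>
    have h1 := (h C List.mem_cons_self).card_pos
    have h2 := ih fun D hD => h D (List.mem_cons_of_mem _ hD)
    simp only [List.length_cons, List.map_cons, List.sum_cons]
    omega

theorem mem_iter (i : ℕ) : ∀ I ∈ (fun L : List (Finset ℕ) => L.flatMap (ch g U q))^[i] [vs g],
    I ⊆ vs g ∧ (nb g I).card ≤ q ∧ I.card + i ≤ g.1.length := by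
  induction i with
  | zero =>
    intro I hI
    rw [List.mem_singleton.1 hI]
    simp [card_vs]
  | succ i ih =>
    intro I hI
    rw [Function.iterate_succ_apply'] at hI
    obtain ⟨J, hJ, h⟩ := List.mem_flatMap.1 hI
    have h1 := ih J hJ
    have h2 := ch_card h1.1 h
    exact ⟨ch_vs h, ch_nb h, by omega⟩

theorem mem_nodes : I ∈ nodes g U q ↔ I = ∅ ∨ ∃ i ≤ g.1.length,
    I ∈ (fun L : List (Finset ℕ) => L.flatMap (ch g U q))^[i] [vs g] := by
  simp only [nodes, lev, List.mem_cons, List.mem_flatMap, List.mem_range, List.length_cons,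
    List.length_take, Nat.lt_succ_iff]
  refine or_congr_right (exists_congr fun i => and_congr_right fun h => ?_)
  rw [min_eq_left h]

theorem empty_mem_nodes : ∅ ∈ nodes g U q := List.mem_cons_self

theorem vs_mem_nodes : vs g ∈ nodes g U q := mem_nodes.2 (Or.inr ⟨0, Nat.zero_le _, by simp⟩)

theorem nodes_good (h : I ∈ nodes g U q) : I ⊆ vs g ∧ (nb g I).card ≤ q := by
  rcases mem_nodes.1 h with rfl | ⟨i, -, h⟩
  · simp
  · exact ⟨(mem_iter i I h).1, (mem_iter i I h).2.1⟩

theorem ch_mem_nodes (h : I ∈ nodes g U q) (hC : C ∈ ch g U q I) : C ∈ nodes g U q := by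
  have h1 := ch_card (nodes_good h).1 hC
  rcases mem_nodes.1 h with rfl | ⟨i, -, h⟩
  · simp at h1
  · have h2 := (mem_iter i I h).2.2
    refine mem_nodes.2 (Or.inr ⟨i + 1, by omega, ?_⟩)
    rw [Function.iterate_succ_apply']
    exact List.mem_flatMap.2 ⟨I, h, hC⟩

theorem cost_le (g : Gr) (Fr Fr' Y : Finset ℕ) : cost g Fr' Y ≤ cost g Fr Y + (Fr \ Fr').card := by
  refine (card_le_card fun u hu => ?_).trans (card_union_le _ _)
  simp only [mem_sdiff, mem_union] at hu ⊢
  tauto

theorem cost_union (g : Gr) (Fr X Y : Finset ℕ) :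
    cost g Fr (X ∪ Y) ≤ cost g Fr X + cost g Fr Y := by
  rw [cost, cl_union, union_sdiff_distrib]
  exact card_union_le _ _

@[simp] theorem cost_empty (g : Gr) (Fr : Finset ℕ) : cost g Fr ∅ = 0 := by simp [cost]

theorem prune_mem (h : X ∈ prune g Fr L) : X ∈ L ∧ X ⊆ vs g := by
  obtain ⟨s, -, h⟩ := List.mem_filterMap.1 h
  have := List.mem_filter.1 (List.mem_of_find?_eq_some h)
  simp only [Bool.and_eq_true, subB_iff] at this
  exact ⟨this.1, this.2.1⟩

theorem prune_dom (hY : Y ∈ L) (hv : Y ⊆ vs g) :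
    ∃ X ∈ prune g Fr L, X.card = Y.card ∧ cost g Fr X ≤ cost g Fr Y := by
  set L' := L.filter fun X => subB X (vs g) && X.card == Y.card with hL
  have h1 : Y ∈ L' := List.mem_filter.2 ⟨hY, by simp [hv]⟩
  obtain ⟨Z, hZ, hm⟩ := exists_min_image L'.toFinset (cost g Fr) ⟨Y, List.mem_toFinset.2 h1⟩
  have h2 : (best g Fr L').isSome := List.find?_isSome.2 ⟨Z, List.mem_toFinset.1 hZ, by
    simpa using fun W hW => hm W (List.mem_toFinset.2 hW)⟩
  obtain ⟨X, hX⟩ := Option.isSome_iff_exists.1 h2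
  have h3 := List.mem_filter.1 (List.mem_of_find?_eq_some hX)
  have h4 := List.find?_some hX
  simp only [Bool.and_eq_true, beq_iff_eq, List.all_eq_true, Nat.ble_eq] at h3 h4
  refine ⟨X, List.mem_filterMap.2 ⟨Y.card, List.mem_range.2 ?_, hX⟩, h3.2.2, h4 Y h1⟩
  have := card_le_card hv
  rw [card_vs] at this
  exact Nat.lt_succ_of_le this

theorem size_prune (g : Gr) (Fr : Finset ℕ) (L : List (Finset ℕ)) :
    size (prune g Fr L) ≤ (g.1.length + 1) * (size (vs g) + 1) + 1 := by
  refine (size_list_le fun X hX => size_mono (prune_mem hX).2).trans ?_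
  have : (prune g Fr L).length ≤ g.1.length + 1 := (List.length_filterMap_le _ _).trans (by simp)
  exact Nat.add_le_add_right (Nat.mul_le_mul_right _ this) _

theorem Dm.mono {lam' : ℕ} (h : Dm g Fr X S lam T ρ p)
    (hp : lam * (S ∩ ρ).card + p + (Fr \ Fr').card ≤ lam' * (S ∩ ρ).card + p') :
    Dm g Fr' X S lam' T ρ p' := by
  obtain ⟨h1, Y, hY, h2, h3⟩ := h
  have := cost_le g Fr Fr' Y
  exact ⟨h1, Y, hY, by omega, by omega⟩

theorem card_inter_union (Z : Finset ℕ) (hd : Disjoint ρ ρ') :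
    (Z ∩ (ρ ∪ ρ')).card = (Z ∩ ρ).card + (Z ∩ ρ').card := by
  rw [inter_union_distrib_left, card_union_of_disjoint
    (disjoint_of_subset_left inter_subset_right (disjoint_of_subset_right inter_subset_right hd))]

theorem Dm.cons {ts : List (List (Finset ℕ))} (h : Dm g Fr X S lam T ρ p)
    (h' : Dm g Fr X S lam (prod g Fr ts) ρ' p') (hd : Disjoint ρ ρ') (hv : ρ ∪ ρ' ⊆ vs g) :
    Dm g Fr X S lam (prod g Fr (T :: ts)) (ρ ∪ ρ') (p + p') := by
  obtain ⟨h1, Y, hY, h2, h3⟩ := h
  obtain ⟨k1, Z, hZ, k2, k3⟩ := h'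
  refine ⟨fun W hW => ?_, ?_⟩
  · obtain ⟨a, ha, hW⟩ := List.mem_flatMap.1 (prune_mem hW).1
    obtain ⟨b, hb, rfl⟩ := List.mem_map.1 hW
    exact union_subset_union (h1 a ha) (k1 b hb)
  · obtain ⟨W, hW, e1, e2⟩ := prune_dom (g := g) (Fr := Fr)
      (L := T.flatMap fun Y => (prod g Fr ts).map fun X => Y ∪ X) (Y := Y ∪ Z)
      (List.mem_flatMap.2 ⟨Y, hY, List.mem_map.2 ⟨Z, hZ, rfl⟩⟩)
      ((union_subset_union (h1 Y hY) (k1 Z hZ)).trans hv)
    rw [card_union_of_disjoint (disjoint_of_subset_left (h1 Y hY)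
      (disjoint_of_subset_right (k1 Z hZ) hd))] at e1
    have := cost_union g Fr Y Z
    refine ⟨W, hW, ?_, ?_⟩ <;> simp only [card_inter_union _ hd, mul_add] <;> omega

theorem Dm.prod {β : Type} {l : List β} {t : β → List (Finset ℕ)} {r : β → Finset ℕ} {c : β → ℕ}
    (h : ∀ i ∈ l, Dm g Fr X S lam (t i) (r i) (c i)) (hv : ∀ i ∈ l, r i ⊆ vs g)
    (hd : (l.map r).Pairwise Disjoint) :
    Dm g Fr X S lam (prod g Fr (l.map t)) (un (l.map r)) (l.map c).sum := by
  induction l with
  | nil => exact ⟨by simp [XA.prod], ∅, by simp [XA.prod], by simp [un], by simp⟩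
  | cons i l ih =>
    obtain ⟨h1, h2⟩ := List.pairwise_cons.1 hd
    refine (h i List.mem_cons_self).cons (ih (fun j hj => h j (List.mem_cons_of_mem _ hj))
      (fun j hj => hv j (List.mem_cons_of_mem _ hj)) h2) (disjoint_left.2 fun x hx k => ?_)
      (union_subset (hv i List.mem_cons_self) fun x hx => ?_)
    · obtain ⟨D, hD, k⟩ := mem_un.1 k
      exact disjoint_left.1 (h1 D hD) hx k
    · obtain ⟨D, hD, k⟩ := mem_un.1 hx
      obtain ⟨j, hj, rfl⟩ := List.mem_map.1 hD
      exact hv j (List.mem_cons_of_mem _ hj) k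

section pt
variable {α : Type} [Enc α]

@[fun_prop] theorem pt_ch {g : α → Gr} {U : α → List Unit} {q : α → ℕ} {I : α → Finset ℕ}
    (hg : PT g) (hU : PT U) (hq : PT q) (hI : PT I) :
    PT (fun a => ch (g a) (U a) (q a) (I a)) := by
  unfold ch; fun_prop

theorem ps_len {g : α → Gr} (hg : PT g) : PS fun a => (g a).1.length :=
  (PT.fst hg).size_le.mono fun _ => (length_lt_size _).le

theorem ps_tab {g : α → Gr} (hg : PT g) :
    PS fun a => ((g a).1.length + 1) * (size (vs (g a)) + 1) + 1 :=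
  (((ps_len hg).add (PB.const 1)).mul ((pt_vs hg).size_le.add (PB.const 1))).add (PB.const 1)

@[fun_prop] theorem pt_lev {g : α → Gr} {U l : α → List Unit} {q : α → ℕ}
    (hg : PT g) (hU : PT U) (hq : PT q) (hl : PT l) :
    PT (fun a => lev (g a) (U a) (q a) (l a)) := by
  refine PT.iterate_inv (f := fun a (L : List (Finset ℕ)) => L.flatMap (ch (g a) (U a) (q a)))
    (by fun_prop) hl (by fun_prop) (fun a L => (∀ I ∈ L, I ⊆ vs (g a)) ∧
      (L.map card).sum ≤ (g a).1.length ∧ L.length ≤ (g a).1.length + 1)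
    (fun a => by simp [card_vs]) (fun a L hL => ?_) _ (ps_tab hg) (fun a L hL => ?_)
  · have h1 := (sum_card_flatMap (g := g a) (U := U a) (q := q a) L).trans hL.2.1
    refine ⟨fun I hI => ?_, h1, ((length_le_sum_card fun I hI => ?_).trans h1).trans (by omega)⟩
    · obtain ⟨J, -, h⟩ := List.mem_flatMap.1 hI
      exact ch_vs h
    · obtain ⟨J, -, h⟩ := List.mem_flatMap.1 hI
      exact comps_nonempty h
  · exact (size_list_le fun X hX => size_mono (hL.1 X hX)).trans
      (Nat.add_le_add_right (Nat.mul_le_mul_right _ hL.2.2) _)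

@[fun_prop] theorem pt_rangeS {g : α → Gr} (hg : PT g) :
    PT (fun a => List.range (() :: (g a).1).length) := PT.rangeLength (by fun_prop)

@[fun_prop] theorem pt_nodes {g : α → Gr} {U : α → List Unit} {q : α → ℕ}
    (hg : PT g) (hU : PT U) (hq : PT q) : PT (fun a => nodes (g a) (U a) (q a)) := by
  have := pt_rangeS hg
  unfold nodes; fun_prop

@[fun_prop] theorem pt_cost {g : α → Gr} {Fr X : α → Finset ℕ} (hg : PT g) (hF : PT Fr)
    (hX : PT X) : PT (fun a => cost (g a) (Fr a) (X a)) := by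
  unfold cost; fun_prop

@[fun_prop] theorem pt_best {g : α → Gr} {Fr : α → Finset ℕ} {L : α → List (Finset ℕ)}
    (hg : PT g) (hF : PT Fr) (hL : PT L) : PT (fun a => best (g a) (Fr a) (L a)) := by
  unfold best; fun_prop

@[fun_prop] theorem pt_prune {g : α → Gr} {Fr : α → Finset ℕ} {L : α → List (Finset ℕ)}
    (hg : PT g) (hF : PT Fr) (hL : PT L) : PT (fun a => prune (g a) (Fr a) (L a)) := by
  have := pt_rangeS hg
  unfold prune; fun_prop

@[fun_prop] theorem pt_prod {g : α → Gr} {Fr : α → Finset ℕ} {L : α → List (List (Finset ℕ))}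
    (hg : PT g) (hF : PT Fr) (hL : PT L) : PT (fun a => prod (g a) (Fr a) (L a)) := by
  refine PT.foldr (f := fun a (T b : List (Finset ℕ)) =>
    prune (g a) (Fr a) (T.flatMap fun Y => b.map fun X => Y ∪ X)) (by fun_prop) hL (PT.const _)
    _ ((ps_tab hg).add (PB.const (size ([∅] : List (Finset ℕ))))) (fun a u _ => ?_)
  cases u with
  | nil => exact Nat.le_add_left _ _
  | cons T u => exact (size_prune _ _ _).trans (Nat.le_add_right _ _)

end pt

end Pool.Agent.P.MP_8c536d_lc.XA
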